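import Mathlib
import Pool.Agent.BRW.Defs

set_option autoImplicit false

/-!
# Lower bound for the width of counting logic: definitions (MP_87b449_lc)

Base graph: three fixed point free involutions `T.m 0, T.m 1, T.m 2` of `V` (edge `u, T.m i u` of
colour `i`; parallel edges are allowed). The CFI graph `X T σ` on `V × Z`, `Z = (ZMod 2)²`, has four
vertices for every vertex of the base graph; `σ` is a twist, given by half-edges (the twist of the
edge `u, T.m i u` is `σ i u + σ i (T.m i u)`).
-/

namespace Pool.Agent.CLB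

open Pool.Agent.BRW

/-- Three fixed point free involutions. -/
structure Tri (V : Type) where
  m : Fin 3 → V → V
  inv : ∀ (i : Fin 3) (v : V), m i (m i v) = v
  ne : ∀ (i : Fin 3) (v : V), m i v ≠ v

/-- The fibre: pairs of bits. -/
abbrev Z : Type := ZMod 2 × ZMod 2

/-- Three functionals on `Z` with sum `0`. -/
def fn (i : Fin 3) (x : Z) : ZMod 2 := if i = 0 then x.1 else if i = 1 then x.2 else x.1 + x.2

/-- The base graph (simple). -/
def Base {V : Type} (T : Tri V) : SimpleGraph V where
  Adj u v := ∃ i : Fin 3, T.m i u = v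
  symm := ⟨fun u v ⟨i, h⟩ => ⟨i, by rw [← h, T.inv]⟩⟩
  loopless := ⟨fun u ⟨i, h⟩ => T.ne i u h⟩

/-- The CFI graph with twist `σ`. -/
def X {V : Type} (T : Tri V) (σ : Fin 3 → V → ZMod 2) : SimpleGraph (V × Z) where
  Adj a b := (∃ i : Fin 3, T.m i a.1 = b.1) ∧
    ∀ i : Fin 3, T.m i a.1 = b.1 → fn i a.2 + fn i b.2 = σ i a.1 + σ i b.1
  symm := ⟨fun a b ⟨⟨i, h⟩, h2⟩ => ⟨⟨i, by rw [← h, T.inv]⟩, fun j hj => by
    rw [add_comm, add_comm (σ j b.1)]
    exact h2 j (by rw [← hj, T.inv])⟩⟩
  loopless := ⟨fun a ⟨⟨i, h⟩, _⟩ => T.ne i a.1 h⟩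

open Classical in
/-- Twist of one half-edge (so of one edge). -/
noncomputable def sg {V : Type} (i0 : Fin 3) (v0 : V) (i : Fin 3) (v : V) : ZMod 2 :=
  if i = i0 ∧ v = v0 then 1 else 0

/-- Reachability in the base graph without the vertices in `S`. -/
def Rch {V : Type} (T : Tri V) (S : Finset V) : V → V → Prop :=
  Relation.ReflTransGen (fun a b => (∃ i : Fin 3, T.m i a = b) ∧ a ∉ S ∧ b ∉ S)

/-- `v ∉ S` and the component of `v` without `S` has more than half of the vertices. -/
def Big {V : Type} (T : Tri V) (S : Finset V) (v : V) : Prop :=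
  v ∉ S ∧ Nat.card V < 2 * Nat.card {w : V // Rch T S v w}

open Classical in
/-- Number of (coloured) edges that leave `U`. -/
noncomputable def cut {V : Type} [Fintype V] (T : Tri V) (U : Finset V) : ℕ :=
  ((Finset.univ : Finset (Fin 3 × V)).filter (fun e => e.2 ∈ U ∧ T.m e.1 e.2 ∉ U)).card

/-- The points: `q` pairs. -/
abbrev Pt (q : ℕ) : Type := Fin q × Bool

/-- The partner. -/
def flp {q : ℕ} (w : Pt q) : Pt q := (w.1, !w.2)

/-- Number of pairs split by `W`. -/
def spl {q : ℕ} (W : Finset (Pt q)) : ℕ := (W.filter (fun w => flp w ∉ W)).card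

/-- The base graph of three permutations. -/
def tri {q : ℕ} (σ : Fin 3 → Equiv.Perm (Pt q)) : Tri (Pt q) where
  m i v := (σ i).symm (flp (σ i v))
  inv i v := by simp [flp]
  ne i v h := by
    have h2 : flp (σ i v) = σ i v := by
      have := congrArg (σ i) h
      simpa using this
    have h3 := congrArg Prod.snd h2
    simp [flp] at h3

end Pool.Agent.CLB
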