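import Mathlib
import Pool.Agent.BRW.Defs
import Pool.Agent.CLB.Defs

set_option autoImplicit false

/-!
# Lower bound for the width of counting logic: statements of the modules (MP_87b449_lc)

Theorem (`StmtFIN`): for all large `q` there is a graph of order `n = 8 q` that is not identified by
`k`-variable counting logic for any `k ≤ n / 50`.

Plan. `p = 2q` base vertices, `n = 4p`, `s = 4q/25` (so `s ≤ 2p/25`, and `k ≤ n/50` iff `k ≤ s`).
(1) RND: three permutations such that every `U` with `(p-s)/3 ≤ |U| ≤ p/2` has more than `s` leaving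
edges. (2) SEP: then for every set `S` of at most `s` vertices some component of the complement has
more than `p/2` vertices. (3) GAM: Duplicator wins the bijective `k`-pebble game on the CFI graphs
`X T 0`, `X T (sg i0 v0)`, `k ≤ s`. (4) NIS: these graphs are not isomorphic.
Each module proves one `Stmt...` (namespace `Pool.Agent.CLB`).
-/

namespace Pool.Agent.CLB

open Pool.Agent.BRW

/-! ## The two graphs are not isomorphic -/

/-- NIS. Proof. For `σ : Fin 3 → V → ZMod 2` and `r : V → V` let `L σ r` be the set of the functions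
`x : V → Z` such that `v ↦ (r v, x v)` is a homomorphism `Base T →g X T σ`. The set of all
homomorphisms `Base T →g X T σ` is the disjoint union of the `L σ r` (`r` = first coordinate of the
homomorphism). If `x, x' ∈ L σ r` then `x - x' ∈ L 0 r` (the functionals `fn i` are additive), so
`|L σ r| ≤ |L 0 r|` (translation by a fixed element of `L σ r`; trivial if `L σ r` is empty). For
`r = id`: `0 ∈ L 0 id`, and `L (sg i0 v0) id` is empty: if `x` is in it then for all `i, v`
`fn i (x v) + fn i (x (m i v)) = sg i0 v0 i v + sg i0 v0 i (m i v)` (as `v` and `m i v` are adjacent in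
`Base T`); with `y i v := fn i (x v) + sg i0 v0 i v` this says `y i v + y i (m i v) = 0`, so
`∑ v, y i v = 0` for every `i` (`Finset.sum_involution`, `ZMod 2`); the sum over `i` and `v` of
`fn i (x v)` is `0` (three functionals with sum `0`), the sum of `sg i0 v0 i v` is `1`: contradiction.
So `X T 0` has strictly more homomorphisms from `Base T` (finite numbers) than `X T (sg i0 v0)`. An
isomorphism would give equal numbers (composition). -/
def StmtNIS : Prop :=
  ∀ (V : Type) [Fintype V] (T : Tri V) (i0 : Fin 3) (v0 : V),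
    IsEmpty (X T (fun _ _ => 0) ≃g X T (sg i0 v0))

/-! ## The game -/

/-- PTH. Moving the defect. Proof. Induction on the path (`Relation.ReflTransGen.head_induction_on` or
`rec`). One step `c → c1 = m i c`, `c, c1 ∉ S`, `c1 ≠ c`: add `1` to `D c i` and to `D c1 i`. Edge
sums do not change (`m i v ∈ {c, c1}` iff `v ∈ {c1, c}`), the vertex sums change at `c` and `c1` by
`1`. -/
def StmtPTH : Prop :=
  ∀ (V : Type) (T : Tri V) (S : Finset V) (D : V → Fin 3 → ZMod 2) (c c' : V),
    Rch T S c c' → (∀ v, (v = c → ∑ i, D v i = 1) ∧ (v ≠ c → ∑ i, D v i = 0)) →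
    ∃ D' : V → Fin 3 → ZMod 2, (∀ v ∈ S, D' v = D v) ∧
      (∀ (i : Fin 3) (v : V), D' v i + D' (T.m i v) i = D v i + D (T.m i v) i) ∧
      (∀ v, (v = c' → ∑ i, D' v i = 1) ∧ (v ≠ c' → ∑ i, D' v i = 0))

/-- BGU. Proof. The two components (without `S` and without `S'`) have more than half of the vertices,
so they meet in some `w`: `Rch T S v w` gives `Rch T S' v w`; `Rch T S' v' w`; symmetry (`T.inv`). -/
def StmtBGU : Prop :=
  ∀ (V : Type) [Finite V] (T : Tri V) (S S' : Finset V) (v v' : V), S' ⊆ S → Big T S v →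
    Big T S' v' → Rch T S' v' v

/-- GAM. Proof. `R a b` iff there are `D : V → Fin 3 → ZMod 2` and `c` such that
(E) `D v i + D (m i v) i = sg i0 v0 i v + sg i0 v0 i (m i v)` for all `i, v`,
(S) `∑ i, D v i` is `1` for `v = c` and `0` for all other `v`,
(B) `Big T (image of j ↦ (a j).1) c`,
(F) `b j = ((a j).1, (a j).2 + (D (a j).1 0, D (a j).1 1))` for all `j`.
As `c` is not one of the `(a j).1` (B), for `u = (a j).1`, `z := (D u 0, D u 1)` we have
`fn i z = D u i` for all `i` (`D u 2 = D u 0 + D u 1` by (S)); so the first condition of `Good`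
(equality: clear; adjacency: `fn` is additive and (E)). Second condition: `a, b, i`; `S'` := image of
`j ↦ (a j).1`, `j ≠ i`. For every `u` the set `S' ∪ {u}` has at most `k` elements, let `c_u` be Big for
it; by BGU `Rch T S' c c_u` (`c` is Big for the image of `a`, which contains `S'`; so it is Big for `S'`, or
use BGU twice through a vertex that is Big for `S'`; reachability without a smaller set is weaker),
PTH gives `D_u` with `D_u = D` on `S'`. `f (u, x) := (u, x + (D_u u 0, D_u u 1))` is a bijection, and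
`R (update a i (u,x)) (update b i (f (u,x)))` with `D_u`, `c_u`. Third condition: the same, starting
from `D v i := sg i0 v0 i v`, `c := v0` (Big for `∅`), `S' = ∅`; the image of the constant tuple has at
most `k` elements. -/
def StmtGAM : Prop :=
  ∀ (V : Type) [Fintype V] (T : Tri V) (k : ℕ) (i0 : Fin 3) (v0 : V),
    (∀ S : Finset V, S.card ≤ k → ∃ v, Big T S v) → Big T ∅ v0 →
    ∃ R : (Fin k → V × Z) → (Fin k → V × Z) → Prop,
      Good k (X T (fun _ _ => 0)) (X T (sg i0 v0)) R ∧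
      ∃ f : (V × Z) ≃ (V × Z), ∀ v, R (fun _ => v) (fun _ => f v)

/-! ## Separators -/

open Classical in
/-- SPL. All components without `S` have at most `p/2` vertices (`p = card V`): the complement of `S`
splits into two unions of components, both of size at least `(p - |S|)/3`. Proof. If some component
`C` has `3|C| ≥ p - |S|` take `A = C`: `|rest| = p - |S| - |C| ≥ p/2 - |S| ≥ (p - |S|)/3` as
`4|S| ≤ p`. Otherwise let `A` be a union of components (`A` disjoint from `S` and closed under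
adjacency outside `S`; the complement of `S` is such a set) with `3|A| ≥ p - |S|` and `|A|` minimal;
`A` is not empty; remove the component `C` of one of its elements: `3(|A| - |C|) < p - |S|`, so
`3|A| < 2(p - |S|)` and `3(p - |S| - |A|) > p - |S|`. -/
def StmtSPL : Prop :=
  ∀ (V : Type) [Fintype V] (T : Tri V) (S : Finset V), 0 < Fintype.card V →
    4 * S.card ≤ Fintype.card V →
    (∀ v, v ∉ S → 2 * Nat.card {w : V // Rch T S v w} ≤ Fintype.card V) →
    ∃ A : Finset V, Disjoint A S ∧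
      (∀ a b : V, a ∈ A → b ∉ S → (∃ i : Fin 3, T.m i a = b) → b ∈ A) ∧
      Fintype.card V ≤ 3 * A.card + S.card ∧
      Fintype.card V ≤ 3 * ((A ∪ S)ᶜ).card + S.card

open Classical in
/-- MIN. Proof. Choose `U` with `A ⊆ U ⊆ A ∪ S` and `cut T U` minimal. For `x ∈ S` let `cr x` be the
number of `i` such that exactly one of `x, m i x` is in `U`. Changing the side of `x` changes the cut
by `3 - 2 cr x` (`m i x ≠ x`; the edges of different colours are counted separately), and keeps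
`A ⊆ U ⊆ A ∪ S` (`x ∉ A`); so `cr x ≤ 1`. Every pair `(i, v)` counted in `cut T U` has `v ∈ S` or
`m i v ∈ S` (otherwise `v ∈ A`, so `m i v ∈ A ⊆ U`); map it to that element of `S`: the pair `(i,v)` is
determined by the element `x ∈ S` (as `cr x ≤ 1`). So `cut T U ≤ |S|`. The second claim: bijection
`(i, v) ↦ (i, m i v)`. -/
def StmtMIN : Prop :=
  ∀ (V : Type) [Fintype V] (T : Tri V) (S A : Finset V), Disjoint A S →
    (∀ a b : V, a ∈ A → b ∉ S → (∃ i : Fin 3, T.m i a = b) → b ∈ A) →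
    ∃ U : Finset V, A ⊆ U ∧ U ⊆ A ∪ S ∧ cut T U ≤ S.card ∧ cut T Uᶜ = cut T U

/-- SEP. Proof. Otherwise (`Big` fails for all `v ∉ S`) SPL and MIN: `U` and its complement both
satisfy `card V ≤ 3|.| + |S| ≤ 3|.| + s`, one of them has `2|.| ≤ card V`, and its cut is at most
`|S| ≤ s`: contradiction. -/
def StmtSEP : Prop :=
  ∀ (V : Type) [Fintype V] (T : Tri V) (s : ℕ), 0 < Fintype.card V → 4 * s ≤ Fintype.card V →
    (∀ U : Finset V, Fintype.card V ≤ 3 * U.card + s → 2 * U.card ≤ Fintype.card V →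
      s < cut T U) →
    ∀ S : Finset V, S.card ≤ s → ∃ v, Big T S v

/-! ## Three random permutations -/

/-- TRI. Proof. For every `i` the map `v ↦ σ i v` is a bijection from the `v ∈ U` with
`(σ i)⁻¹ (flp (σ i v)) ∉ U` to the `w ∈ σ i U` with `flp w ∉ σ i U`. -/
def StmtTRI : Prop :=
  ∀ (q : ℕ) (σ : Fin 3 → Equiv.Perm (Pt q)) (U : Finset (Pt q)),
    cut (tri σ) U = ∑ i, spl (U.map (σ i).toEmbedding)

/-- AVG. The average over all permutations. Proof. Let `Φ U := ∑ σ, g (σ U)`. `Φ U = Φ (τ U)` for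
permutations `τ` (`σ ↦ σ τ`), so `Φ` is constant on the sets of size `u` (any two are mapped to each
other by a permutation). `C(p,u) Φ U = ∑_{W, |W| = u} Φ W = ∑ σ, ∑_{|W| = u} g (σ W) =
p! ∑_{|W| = u} g W`. -/
def StmtAVG : Prop :=
  ∀ (V : Type) [Fintype V] [DecidableEq V] (g : Finset V → ℝ) (U : Finset V),
    ((Fintype.card V).choose U.card : ℝ) * ∑ σ : Equiv.Perm V, g (U.map σ.toEmbedding) =
      ((Fintype.card V).factorial : ℝ) * ∑ W ∈ Finset.powersetCard U.card Finset.univ, g W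

/-- GEN. Proof. `∑_W y^(spl W) z^|W|` over ALL subsets `W` is `(1 + 2yz + z²)^q` (product over the `q`
pairs: no point, two possibilities for one point, both points; induction on `q` or
`Finset.prod_univ_sum`); all terms are `≥ 0`. -/
def StmtGEN : Prop :=
  ∀ (q u : ℕ) (y z : ℝ), 0 ≤ y → 0 ≤ z →
    (∑ W ∈ Finset.powersetCard u (Finset.univ : Finset (Pt q)), y ^ spl W) * z ^ u ≤
      (1 + 2 * y * z + z ^ 2) ^ q

/-- BIN. Proof. `t_k := C(p,k) (u/p)^k (1-u/p)^(p-k)`, `k = 0..p`, have sum `1` (`add_pow`), and `t_u`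
is the largest: `t_(k+1) ≥ t_k` iff `(p-k) u ≥ (k+1)(p-u)` iff `(k+1) p ≤ (p+1) u`, true for `k+1 ≤ u`,
and false for `k ≥ u`, `u < p`. (`0 < u < p`; the cases `u = 0`, `u = p` are trivial.) -/
def StmtBIN : Prop :=
  ∀ p u : ℕ, 0 < p → u ≤ p →
    (1 : ℝ) ≤ (p + 1) * (p.choose u : ℝ) * ((u : ℝ) / p) ^ u * (1 - (u : ℝ) / p) ^ (p - u)

/-- NUM. Proof. `c = 1/1000`, `y = 1/16`; `z = 2/3` for `α ≤ 2/5`, `z = 7/8` for `α ≥ 2/5`. For fixed
`y, z` the left side is convex in `α` (`Real.convexOn_mul_log` for `α` and `1 - α`, the rest is affine),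
so it is at most the larger of the values at the end points of the interval. Values:
`α = 23/75, z = 2/3`: multiply by `150`: the logarithm of
`(23/75)^92 (52/75)^208 16^12 (55/36)^225 (3/2)^138 ≤ 4/5`, and `log (4/5) ≤ -1/5`;
`α = 2/5, z = 2/3`: times `50`: `(2/5)^40 (3/5)^60 16^4 (55/36)^75 (3/2)^60 ≤ 19/20`;
`α = 2/5, z = 7/8`: times `50`: `(2/5)^40 (3/5)^60 16^4 (15/8)^75 (8/7)^60 ≤ 1/2`;
`α = 1/2, z = 7/8`: times `50`: `(1/2)^100 16^4 (15/8)^75 (8/7)^75 ≤ 1/2`
(values -0.00226, -0.00194, -0.0211, -0.0213). `log x ≤ x - 1`. -/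
def StmtNUM : Prop :=
  ∃ c : ℝ, 0 < c ∧ ∀ α : ℝ, 23 / 75 ≤ α → α ≤ 1 / 2 → ∃ y z : ℝ, 0 < y ∧ y ≤ 1 ∧ 0 < z ∧
    2 * (α * Real.log α + (1 - α) * Real.log (1 - α)) - 2 / 25 * Real.log y +
      3 / 2 * Real.log (1 + 2 * y * z + z ^ 2) - 3 * α * Real.log z ≤ -c

/-- MKV. Markov. Proof. For `σ` counted: `y^s ≤ y^(∑ i, spl (σ i U)) = ∏ i, y^(spl (σ i U))` as
`y ≤ 1`. Sum over all `σ : Fin 3 → Perm`: the product of three sums
`∑ τ, y^(spl (τ U))` (`Finset.prod_univ_sum` / `Fintype.piFinset_univ`), each of which is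
`p!/C(p,u) ∑_W y^(spl W)` by AVG. (`U.card ≤ 2q`, so `C > 0`.) -/
def StmtMKV : Prop :=
  ∀ (q s : ℕ) (y : ℝ) (U : Finset (Pt q)), 0 < y → y ≤ 1 →
    (Nat.card {σ : Fin 3 → Equiv.Perm (Pt q) // ∑ i, spl (U.map (σ i).toEmbedding) ≤ s} : ℝ) *
        y ^ s * ((2 * q).choose U.card : ℝ) ^ 3 ≤
      (((2 * q).factorial : ℝ) *
        ∑ W ∈ Finset.powersetCard U.card (Finset.univ : Finset (Pt q)), y ^ spl W) ^ 3

/-- SIZ. All sets of one size. Proof. `p = 2q`, `α = u/p ∈ [23/75, 1/2]`, `y, z` of NUM. MKV, GEN, BIN: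
the sum is at most `C(p,u) y^(-s) (p!)³ C(p,u)^(-3) ((1+2yz+z²)^q z^(-u))³
≤ (p!)³ (p+1)² (α^u (1-α)^(p-u))² y^(-s) (1+2yz+z²)^(3q) z^(-3u)
≤ (p!)³ (p+1)² exp (p (left side of NUM))`, since `u = α p`, `s ≤ (2/25) p`, `log y ≤ 0`. -/
def StmtSIZ : Prop :=
  ∃ c : ℝ, 0 < c ∧ ∀ q u s : ℕ, 0 < q → 46 * q ≤ 75 * u → u ≤ q → 25 * s ≤ 4 * q →
    ∑ U ∈ Finset.powersetCard u (Finset.univ : Finset (Pt q)),
      (Nat.card {σ : Fin 3 → Equiv.Perm (Pt q) //
        ∑ i, spl (U.map (σ i).toEmbedding) ≤ s} : ℝ) ≤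
      ((2 * q).factorial : ℝ) ^ 3 * ((2 * q + 1) ^ 2 * Real.exp (-(c * (2 * q))))

/-- RND. Proof. `s := 4 * q / 25` (natural division). If no `σ` is good, every `σ : Fin 3 → Perm` has a
`U` with `2q ≤ 3|U| + s`, `2|U| ≤ 2q`, `cut (tri σ) U ≤ s`; TRI; `3|U| ≥ 2q - s ≥ 46q/25`. So
`(p!)³ = #σ ≤ ∑_u ∑_{|U| = u} #{...} ≤ (p!)³ (q+1) (2q+1)² exp (-2cq)`, false for large `q`. -/
def StmtRND : Prop :=
  ∃ q0 : ℕ, ∀ q : ℕ, q0 ≤ q → ∃ σ : Fin 3 → Equiv.Perm (Pt q), ∀ U : Finset (Pt q),
    2 * q ≤ 3 * U.card + 4 * q / 25 → 2 * U.card ≤ 2 * q → 4 * q / 25 < cut (tri σ) U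

/-! ## The theorem -/

/-- FIN. Proof. `q ≥ max q0 1`, `T := tri σ` of RND, `V := Pt q`, `p = 2q`, `s = 4q/25`; SEP (`4s ≤ 2q`).
`k ≤ s`; `v0` := a Big vertex for `∅`; GAM gives the relation for `H := X T (sg 0 v0)`; if
`Identifies k (X T 0)` then `X T 0 ≃g H`, against NIS. -/
def StmtFIN : Prop :=
  ∃ q0 : ℕ, ∀ q : ℕ, q0 ≤ q → ∃ G : SimpleGraph (Pt q × Z), ∀ k : ℕ, k ≤ 4 * q / 25 →
    ¬ Identifies k G

end Pool.Agent.CLB
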