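import Mathlib
import Pool.Agent.BRW.Defs
import Pool.Agent.CLB.Defs
import Pool.Agent.CLB.St

set_option autoImplicit false

/-!
# Generating function of the number of split pairs (module GEN)
-/

namespace Pool.Agent.CLB

open Pool.Agent.BRW

/-- weight of one pair -/
noncomputable def gen_h (y z : ℝ) (b : Bool × Bool) : ℝ :=
  y ^ (if b.1 = b.2 then 0 else 1) * z ^ ((if b.2 = true then 1 else 0) + (if b.1 = true then 1 else 0))

/-- the pattern of a set on the pairs -/
def gen_f {q : ℕ} (W : Finset (Pt q)) (i : Fin q) : Bool × Bool :=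
  (decide ((i, false) ∈ W), decide ((i, true) ∈ W))

theorem gen_f_inj {q : ℕ} : Function.Injective (gen_f (q := q)) := by
  intro W W' h
  ext ⟨i, b⟩
  have h1 := congrFun h i
  simp only [gen_f, Prod.mk.injEq, decide_eq_decide] at h1
  cases b
  · exact h1.1
  · exact h1.2

theorem gen_card {q : ℕ} (W : Finset (Pt q)) :
    W.card = ∑ i : Fin q, ((if (gen_f W i).2 = true then 1 else 0) +
      (if (gen_f W i).1 = true then 1 else 0)) := by
  have h1 : W.card = ((Finset.univ : Finset (Pt q)).filter (fun w => w ∈ W)).card := by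
    congr 1
    ext w
    simp
  rw [h1, Finset.card_filter, Fintype.sum_prod_type]
  refine Finset.sum_congr rfl fun i _ => ?_
  rw [Fintype.sum_bool]
  simp [gen_f]

theorem gen_spl {q : ℕ} (W : Finset (Pt q)) :
    spl W = ∑ i : Fin q, (if (gen_f W i).1 = (gen_f W i).2 then 0 else 1) := by
  have h1 : spl W = ((Finset.univ : Finset (Pt q)).filter (fun w => w ∈ W ∧ flp w ∉ W)).card := by
    unfold spl
    congr 1
    ext w
    simp
  rw [h1, Finset.card_filter, Fintype.sum_prod_type]
  refine Finset.sum_congr rfl fun i _ => ?_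
  rw [Fintype.sum_bool]
  by_cases ha : (i, false) ∈ W <;> by_cases hb : (i, true) ∈ W <;> simp [gen_f, flp, ha, hb]

theorem gen_prod {q : ℕ} (y z : ℝ) (W : Finset (Pt q)) :
    y ^ spl W * z ^ W.card = ∏ i : Fin q, gen_h y z (gen_f W i) := by
  unfold gen_h
  rw [Finset.prod_mul_distrib, Finset.prod_pow_eq_pow_sum, Finset.prod_pow_eq_pow_sum, ← gen_spl,
    ← gen_card]

theorem gen_h_nonneg (y z : ℝ) (hy : 0 ≤ y) (hz : 0 ≤ z) (b : Bool × Bool) : 0 ≤ gen_h y z b := by
  unfold gen_h
  positivity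

theorem gen_sum (y z : ℝ) : ∑ b : Bool × Bool, gen_h y z b = 1 + 2 * y * z + z ^ 2 := by
  rw [Fintype.sum_prod_type]
  simp [gen_h]
  ring

theorem gen : StmtGEN := by
  intro q u y z hy hz
  have h1 : (∑ W ∈ Finset.powersetCard u (Finset.univ : Finset (Pt q)), y ^ spl W) * z ^ u =
      ∑ W ∈ Finset.powersetCard u (Finset.univ : Finset (Pt q)),
        ∏ i : Fin q, gen_h y z (gen_f W i) := by
    rw [Finset.sum_mul]
    refine Finset.sum_congr rfl fun W hW => ?_
    rw [← gen_prod, (Finset.mem_powersetCard.mp hW).2]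
  have h2 : ∑ W ∈ Finset.powersetCard u (Finset.univ : Finset (Pt q)),
      ∏ i : Fin q, gen_h y z (gen_f W i) =
      ∑ g ∈ (Finset.powersetCard u (Finset.univ : Finset (Pt q))).image gen_f,
        ∏ i : Fin q, gen_h y z (g i) := by
    rw [Finset.sum_image fun a _ b _ h => gen_f_inj h]
  have h3 : ∑ g ∈ (Finset.powersetCard u (Finset.univ : Finset (Pt q))).image gen_f,
        ∏ i : Fin q, gen_h y z (g i) ≤
      ∑ g : Fin q → Bool × Bool, ∏ i : Fin q, gen_h y z (g i) := by
    refine Finset.sum_le_sum_of_subset_of_nonneg (Finset.subset_univ _) fun g _ _ => ?_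
    exact Finset.prod_nonneg fun i _ => gen_h_nonneg y z hy hz _
  have h4 : ∑ g : Fin q → Bool × Bool, ∏ i : Fin q, gen_h y z (g i) =
      (1 + 2 * y * z + z ^ 2) ^ q := by
    have h5 := Finset.prod_univ_sum (fun _ : Fin q => (Finset.univ : Finset (Bool × Bool)))
      (fun _ b => gen_h y z b)
    rw [Fintype.piFinset_univ] at h5
    rw [← h5, Finset.prod_const, Finset.card_univ, Fintype.card_fin, gen_sum]
  rw [h1, h2]
  exact h3.trans h4.le

end Pool.Agent.CLB
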