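import Mathlib
import Pool.Agent.BRW.Defs
import Pool.Agent.CLB.Defs
import Pool.Agent.CLB.St

set_option autoImplicit false

namespace Pool.Agent.CLB

open Pool.Agent.BRW

theorem avg_exists_perm {V : Type} [Fintype V] [DecidableEq V] (U W : Finset V)
    (h : W.card = U.card) : ∃ τ : Equiv.Perm V, U.map τ.toEmbedding = W := by
  classical
  let e : {x // x ∈ U} ≃ {x // x ∈ W} := Finset.equivOfCardEq h.symm
  refine ⟨e.extendSubtype, ?_⟩
  apply Finset.eq_of_subset_of_card_le
  · intro x hx
    rw [Finset.mem_map] at hx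
    obtain ⟨y, hy, rfl⟩ := hx
    exact e.extendSubtype_mem y hy
  · rw [Finset.card_map, h]

theorem avg_const {V : Type} [Fintype V] [DecidableEq V] (g : Finset V → ℝ) (U W : Finset V)
    (h : W.card = U.card) :
    ∑ σ : Equiv.Perm V, g (W.map σ.toEmbedding) = ∑ σ : Equiv.Perm V, g (U.map σ.toEmbedding) := by
  obtain ⟨τ, hτ⟩ := avg_exists_perm U W h
  symm
  rw [← Equiv.sum_comp (Equiv.mulRight τ)]
  apply Finset.sum_congr rfl
  intro σ _
  rw [← hτ, Finset.map_map]
  rfl

theorem avg_reindex {V : Type} [Fintype V] [DecidableEq V] (g : Finset V → ℝ) (u : ℕ)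
    (σ : Equiv.Perm V) :
    ∑ W ∈ Finset.powersetCard u (Finset.univ : Finset V), g (W.map σ.toEmbedding) =
      ∑ W ∈ Finset.powersetCard u (Finset.univ : Finset V), g W := by
  refine Finset.sum_bij' (fun W _ => W.map σ.toEmbedding) (fun W _ => W.map σ.symm.toEmbedding)
    ?_ ?_ ?_ ?_ ?_
  · intro W hW
    rw [Finset.mem_powersetCard] at hW ⊢
    exact ⟨Finset.subset_univ _, by rw [Finset.card_map]; exact hW.2⟩
  · intro W hW
    rw [Finset.mem_powersetCard] at hW ⊢
    exact ⟨Finset.subset_univ _, by rw [Finset.card_map]; exact hW.2⟩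
  · intro W _
    ext x
    simp
  · intro W _
    ext x
    simp
  · intro W _
    rfl

theorem avg : StmtAVG := by
  intro V _ _ g U
  have h1 : ∑ W ∈ Finset.powersetCard U.card (Finset.univ : Finset V),
      ∑ σ : Equiv.Perm V, g (W.map σ.toEmbedding) =
      ((Fintype.card V).choose U.card : ℝ) * ∑ σ : Equiv.Perm V, g (U.map σ.toEmbedding) := by
    rw [Finset.sum_congr rfl (fun W hW => avg_const g U W (Finset.mem_powersetCard.mp hW).2)]
    rw [Finset.sum_const, Finset.card_powersetCard, Finset.card_univ, nsmul_eq_mul]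
  rw [← h1, Finset.sum_comm]
  rw [Finset.sum_congr rfl (fun σ _ => avg_reindex g U.card σ)]
  rw [Finset.sum_const, Finset.card_univ, Fintype.card_perm, nsmul_eq_mul]

end Pool.Agent.CLB
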