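import Mathlib
import Pool.Agent.CLB.St

/-!
Module BGU of the project CLB (helper64): big components meet.
-/

set_option autoImplicit false

namespace Pool.Agent.CLB

open Pool.Agent.BRW

theorem bgu_symm {V : Type} (T : Tri V) (S : Finset V) {a b : V} (h : Rch T S a b) :
    Rch T S b a := by
  induction h with
  | refl => exact Relation.ReflTransGen.refl
  | tail _ hbc ih =>
    obtain ⟨⟨i, hi⟩, hx, hy⟩ := hbc
    exact Relation.ReflTransGen.head ⟨⟨i, by rw [← hi, T.inv]⟩, hy, hx⟩ ih

theorem bgu_mono {V : Type} (T : Tri V) {S S' : Finset V} (hS : S' ⊆ S) {a b : V}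
    (h : Rch T S a b) : Rch T S' a b := by
  induction h with
  | refl => exact Relation.ReflTransGen.refl
  | tail _ hbc ih =>
    exact Relation.ReflTransGen.tail ih ⟨hbc.1, fun h => hbc.2.1 (hS h), fun h => hbc.2.2 (hS h)⟩

theorem bgu : StmtBGU := by
  intro V _ T S S' v v' hSS h1 h2
  classical
  have h3 : ∃ w, Rch T S v w ∧ Rch T S' v' w := by
    by_contra hno
    have hdis : Disjoint {w : V | Rch T S v w} {w : V | Rch T S' v' w} := by
      rw [Set.disjoint_left]
      intro w hw hw'
      exact hno ⟨w, hw, hw'⟩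
    have h4 := Set.ncard_union_eq hdis (Set.toFinite _) (Set.toFinite _)
    have h5 : ({w : V | Rch T S v w} ∪ {w : V | Rch T S' v' w}).ncard ≤ Nat.card V :=
      Set.ncard_le_card _
    have h6 : {w : V | Rch T S v w}.ncard = Nat.card {w : V // Rch T S v w} := rfl
    have h7 : {w : V | Rch T S' v' w}.ncard = Nat.card {w : V // Rch T S' v' w} := rfl
    have h8 := h1.2
    have h9 := h2.2
    omega
  obtain ⟨w, hw, hw'⟩ := h3
  exact Relation.ReflTransGen.trans hw' (bgu_symm T S' (bgu_mono T hSS hw))

end Pool.Agent.CLB
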