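import Mathlib
import Pool.Agent.CLB.St

set_option autoImplicit false

/-!
# A lower bound for binomial coefficients (module BIN of CLB, MP_87b449_lc)   (helper8)
-/

namespace Pool.Agent.CLB

/-- `C(p,k) u^k (p-u)^(p-k)`. -/
def binT (p u k : ℕ) : ℕ := p.choose k * u ^ k * (p - u) ^ (p - k)

theorem binT_step (p u k : ℕ) (hk : k < p) :
    (k + 1) * (p - u) * binT p u (k + 1) = (p - k) * u * binT p u k := by
  have h1 : p - k = (p - (k + 1)) + 1 := by omega
  have h2 := Nat.choose_succ_right_eq p k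
  unfold binT
  calc (k + 1) * (p - u) * (p.choose (k + 1) * u ^ (k + 1) * (p - u) ^ (p - (k + 1)))
      = (p.choose (k + 1) * (k + 1)) * (u ^ (k + 1)) * ((p - u) ^ (p - (k + 1)) * (p - u)) := by
        ring
    _ = (p.choose k * (p - k)) * (u ^ (k + 1)) * (p - u) ^ (p - k) := by
        rw [h2, ← pow_succ, ← h1]
    _ = (p - k) * u * (p.choose k * u ^ k * (p - u) ^ (p - k)) := by ring

theorem binT_up (p u k : ℕ) (hk : k < u) (hu : u ≤ p) : binT p u k ≤ binT p u (k + 1) := by
  rcases Nat.eq_or_lt_of_le hu with h | h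
  · have h0 : binT p u k = 0 := by
      unfold binT
      rw [h, Nat.sub_self, zero_pow (by omega), mul_zero]
    rw [h0]; exact Nat.zero_le _
  · have hs := binT_step p u k (by omega)
    have hc : (k + 1) * (p - u) ≤ (p - k) * u := by
      zify [hu, (by omega : k ≤ p)]
      nlinarith [(by exact_mod_cast hk : (k : ℤ) + 1 ≤ u), (by exact_mod_cast h : (u : ℤ) < p)]
    have hpos : 0 < (k + 1) * (p - u) := Nat.mul_pos (Nat.succ_pos _) (by omega)
    apply Nat.le_of_mul_le_mul_left _ hpos
    rw [hs]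
    exact Nat.mul_le_mul_right _ hc

theorem binT_down (p u k : ℕ) (hk : u ≤ k) (hkp : k < p) :
    binT p u (k + 1) ≤ binT p u k := by
  have hs := binT_step p u k hkp
  have hc : (p - k) * u ≤ (k + 1) * (p - u) := by
    zify [(by omega : u ≤ p), (by omega : k ≤ p)]
    nlinarith [(by exact_mod_cast hk : (u : ℤ) ≤ k), (by exact_mod_cast hkp : (k : ℤ) < p)]
  have hpos : 0 < (k + 1) * (p - u) := Nat.mul_pos (Nat.succ_pos _) (by omega)
  apply Nat.le_of_mul_le_mul_left _ hpos
  rw [hs]
  exact Nat.mul_le_mul_right _ hc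

theorem binT_le (p u k : ℕ) (hu : u ≤ p) (hk : k ≤ p) : binT p u k ≤ binT p u u := by
  rcases Nat.le_total k u with h | h
  · obtain ⟨d, rfl⟩ := Nat.exists_eq_add_of_le h
    clear h hk
    have : ∀ e, e ≤ d → binT p (k + d) k ≤ binT p (k + d) (k + e) := by
      intro e
      induction e with
      | zero => intro _; exact le_refl _
      | succ e ih =>
        intro he
        exact (ih (by omega)).trans (binT_up p (k + d) (k + e) (by omega) hu)
    exact this d (le_refl _)
  · obtain ⟨d, rfl⟩ := Nat.exists_eq_add_of_le h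
    clear h
    have : ∀ e, e ≤ d → binT p u (u + e) ≤ binT p u u := by
      intro e
      induction e with
      | zero => intro _; exact le_refl _
      | succ e ih =>
        intro he
        exact (binT_down p u (u + e) (by omega) (by omega)).trans (ih (by omega))
    exact this d (le_refl _)

theorem binT_sum (p u : ℕ) (hu : u ≤ p) : p ^ p ≤ (p + 1) * binT p u u := by
  have h1 : p ^ p = ∑ k ∈ Finset.range (p + 1), binT p u k := by
    have h2 := add_pow u (p - u) p
    rw [Nat.add_sub_cancel' hu] at h2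
    rw [h2]
    refine Finset.sum_congr rfl fun k _ => ?_
    unfold binT; push_cast; ring
  rw [h1]
  calc ∑ k ∈ Finset.range (p + 1), binT p u k
      ≤ ∑ _k ∈ Finset.range (p + 1), binT p u u :=
        Finset.sum_le_sum fun k hk => binT_le p u k hu (by
          have := Finset.mem_range.1 hk; omega)
    _ = (p + 1) * binT p u u := by rw [Finset.sum_const, Finset.card_range, smul_eq_mul]

/-- BIN. -/
theorem bin : StmtBIN := by
  intro p u hp hu
  have hp0 : (0 : ℝ) < p := by exact_mod_cast hp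
  have h1 : ((p : ℝ)) ^ p ≤ (p + 1) * ((p.choose u : ℝ) * (u : ℝ) ^ u * ((p : ℝ) - u) ^ (p - u)) := by
    have h2 := binT_sum p u hu
    have h3 : ((p ^ p : ℕ) : ℝ) ≤ (((p + 1) * binT p u u : ℕ) : ℝ) := by exact_mod_cast h2
    unfold binT at h3
    rw [Nat.cast_mul, Nat.cast_mul, Nat.cast_mul, Nat.cast_pow, Nat.cast_pow, Nat.cast_pow,
      Nat.cast_sub hu] at h3
    push_cast at h3
    exact h3
  have h4 : (1 - (u : ℝ) / p) = ((p : ℝ) - u) / p := by field_simp
  have h5 : (p : ℝ) ^ p = (p : ℝ) ^ u * (p : ℝ) ^ (p - u) := by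
    rw [← pow_add, Nat.add_sub_cancel' hu]
  have h6 : ((p : ℝ) + 1) * (p.choose u : ℝ) * ((u : ℝ) / p) ^ u * (1 - (u : ℝ) / p) ^ (p - u) =
      ((p + 1) * ((p.choose u : ℝ) * (u : ℝ) ^ u * ((p : ℝ) - u) ^ (p - u))) / (p : ℝ) ^ p := by
    rw [h4, div_pow, div_pow, h5]
    have e1 : (p : ℝ) ^ u ≠ 0 := pow_ne_zero _ hp0.ne'
    have e2 : (p : ℝ) ^ (p - u) ≠ 0 := pow_ne_zero _ hp0.ne'
    field_simp
  rw [h6, le_div_iff₀ (pow_pos hp0 p), one_mul]
  exact h1

end Pool.Agent.CLB
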