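import Mathlib
import Pool.Agent.CLB.St

/-!
`StmtFIN` (MP_87b449_lc, lower bound for the width), helper47.
-/

set_option autoImplicit false

namespace Pool.Agent.CLB

open Pool.Agent.BRW

theorem fin (hRND : StmtRND) (hSEP : StmtSEP) (hGAM : StmtGAM) (hNIS : StmtNIS) : StmtFIN := by
  obtain ⟨q0, h⟩ := hRND
  refine ⟨max q0 1, fun q hq => ?_⟩
  obtain ⟨σ, hσ⟩ := h q ((le_max_left _ _).trans hq)
  have hq1 : 1 ≤ q := (le_max_right _ _).trans hq
  have hc : Fintype.card (Pt q) = 2 * q := by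
    rw [Fintype.card_prod, Fintype.card_fin, Fintype.card_bool, mul_comm]
  have hsep := hSEP (Pt q) (tri σ) (4 * q / 25) (by omega) (by omega) (fun U h1 h2 => by
    rw [hc] at h1 h2
    exact hσ U h1 h2)
  obtain ⟨v0, hv0⟩ := hsep ∅ (by simp)
  refine ⟨X (tri σ) (fun _ _ => 0), fun k hk hI => ?_⟩
  obtain ⟨R, hR, f, hf⟩ := hGAM (Pt q) (tri σ) k 0 v0 (fun S hS => hsep S (hS.trans hk)) hv0
  obtain ⟨e⟩ := hI (Pt q × Z) (X (tri σ) (sg 0 v0)) ⟨R, hR.1, hR.2, f, hf⟩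
  exact (hNIS (Pt q) (tri σ) 0 v0).false e

end Pool.Agent.CLB
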