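import Mathlib
import Pool.Agent.BRW.Defs
import Pool.Agent.CLB.Defs
import Pool.Agent.CLB.St

set_option autoImplicit false

/-!
# CLB, module GAM: Duplicator wins the bijective pebble game on the two CFI graphs
-/

namespace Pool.Agent.CLB

open Pool.Agent.BRW

theorem gam_fn_add (i : Fin 3) (x y : Z) : fn i (x + y) = fn i x + fn i y := by
  unfold fn
  split_ifs
  · rfl
  · rfl
  · simp only [Prod.fst_add, Prod.snd_add]
    ring

/-- Edge condition. -/
def gamE {V : Type} (T : Tri V) (i0 : Fin 3) (v0 : V) (D : V → Fin 3 → ZMod 2) : Prop :=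
  ∀ (i : Fin 3) (v : V), D v i + D (T.m i v) i = sg i0 v0 i v + sg i0 v0 i (T.m i v)

/-- Vertex condition. -/
def gamS {V : Type} (c : V) (D : V → Fin 3 → ZMod 2) : Prop :=
  ∀ v, (v = c → ∑ i, D v i = 1) ∧ (v ≠ c → ∑ i, D v i = 0)

open Classical in
/-- The set of the base vertices of a tuple. -/
noncomputable def gamImg {V : Type} {k : ℕ} (a : Fin k → V × Z) : Finset V :=
  Finset.univ.image (fun j => (a j).1)

/-- The winning region. -/
def gamR {V : Type} (T : Tri V) (k : ℕ) (i0 : Fin 3) (v0 : V)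
    (a b : Fin k → V × Z) : Prop :=
  ∃ (D : V → Fin 3 → ZMod 2) (c : V), gamE T i0 v0 D ∧ gamS c D ∧ Big T (gamImg a) c ∧
    ∀ j, b j = ((a j).1, (a j).2 + (D (a j).1 0, D (a j).1 1))

theorem gam_fn_D {V : Type} {c : V} {D : V → Fin 3 → ZMod 2} (hS : gamS c D) (u : V)
    (hu : u ≠ c) (i : Fin 3) : fn i (D u 0, D u 1) = D u i := by
  have h := (hS u).2 hu
  rw [Fin.sum_univ_three] at h
  fin_cases i
  · simp [fn]
  · simp [fn]
  · have h2 : D u 2 = D u 0 + D u 1 := by
      have h3 : D u 0 + D u 1 + D u 2 + D u 2 = D u 2 := by rw [h, zero_add]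
      have h4 : D u 2 + D u 2 = 0 := CharTwo.add_self_eq_zero _
      rw [add_assoc, h4, add_zero] at h3
      exact h3.symm
    simp [fn, h2]

theorem gam_mem {V : Type} {k : ℕ} (a : Fin k → V × Z) (j : Fin k) : (a j).1 ∈ gamImg a := by
  classical
  unfold gamImg
  rw [Finset.mem_image]
  exact ⟨j, Finset.mem_univ _, rfl⟩

theorem gam_card {V : Type} {k : ℕ} (a : Fin k → V × Z) : (gamImg a).card ≤ k := by
  classical
  unfold gamImg
  refine Finset.card_image_le.trans ?_
  simp

theorem gam_congr {V : Type} {k : ℕ} (a a' : Fin k → V × Z) (h : ∀ j, (a j).1 = (a' j).1) :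
    gamImg a = gamImg a' := by
  have h2 : (fun j => (a j).1) = (fun j => (a' j).1) := funext h
  unfold gamImg
  rw [h2]

theorem gam_symm {V : Type} (T : Tri V) (S : Finset V) {x y : V} (h : Rch T S x y) :
    Rch T S y x := by
  unfold Rch at h ⊢
  induction h with
  | refl => exact Relation.ReflTransGen.refl
  | tail _ hbc ih =>
    obtain ⟨⟨i, hi⟩, ha, hb⟩ := hbc
    exact Relation.ReflTransGen.head ⟨⟨i, by rw [← hi, T.inv]⟩, hb, ha⟩ ih

/-- First condition. -/
theorem gam_one {V : Type} (T : Tri V) (k : ℕ) (i0 : Fin 3) (v0 : V)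
    (a b : Fin k → V × Z) (hR : gamR T k i0 v0 a b) (i j : Fin k) :
    (a i = a j ↔ b i = b j) ∧
      ((X T (fun _ _ => 0)).Adj (a i) (a j) ↔ (X T (sg i0 v0)).Adj (b i) (b j)) := by
  obtain ⟨D, c, hE, hS, hB, hF⟩ := hR
  have hne : ∀ j, (a j).1 ≠ c := by
    intro j hj
    exact hB.1 (hj ▸ gam_mem a j)
  constructor
  · constructor
    · intro h
      rw [hF i, hF j, h]
    · intro h
      rw [hF i, hF j] at h
      have h1 : (a i).1 = (a j).1 := (Prod.mk.inj h).1
      have h2 := (Prod.mk.inj h).2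
      rw [h1] at h2
      have h3 : (a i).2 = (a j).2 := add_right_cancel h2
      exact Prod.ext h1 h3
  · have key : ∀ l : Fin 3, T.m l (a i).1 = (a j).1 →
        (fn l (a i).2 + fn l (a j).2 = 0 + 0 ↔
          fn l ((a i).2 + (D (a i).1 0, D (a i).1 1)) +
            fn l ((a j).2 + (D (a j).1 0, D (a j).1 1)) =
          sg i0 v0 l (a i).1 + sg i0 v0 l (a j).1) := by
      intro l hl
      rw [gam_fn_add, gam_fn_add, gam_fn_D hS _ (hne i), gam_fn_D hS _ (hne j)]
      have h1 := hE l (a i).1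
      rw [hl] at h1
      rw [← h1]
      constructor
      · intro h
        linear_combination h
      · intro h
        linear_combination h
    rw [hF i, hF j]
    unfold X
    simp only
    constructor
    · rintro ⟨h1, h2⟩
      exact ⟨h1, fun l hl => (key l hl).1 (h2 l hl)⟩
    · rintro ⟨h1, h2⟩
      exact ⟨h1, fun l hl => (key l hl).2 (h2 l hl)⟩

/-- The bijection. -/
def gamF {V : Type} (z : V → Z) : (V × Z) ≃ (V × Z) where
  toFun p := (p.1, p.2 + z p.1)
  invFun p := (p.1, p.2 - z p.1)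
  left_inv p := by simp
  right_inv p := by simp

theorem gam (hPTH : StmtPTH) (hBGU : StmtBGU) : StmtGAM := by
  classical
  intro V _ T k i0 v0 hbig hv0
  refine ⟨gamR T k i0 v0, ⟨?_, ?_⟩, ?_⟩
  · intro a b hR i j
    exact gam_one T k i0 v0 a b hR i j
  · intro a b hR i
    obtain ⟨D, c, hE, hS, hB, hF⟩ := hR
    let S' : Finset V := (Finset.univ.filter (fun j : Fin k => j ≠ i)).image (fun j => (a j).1)
    have hS'a : S' ⊆ gamImg a := by
      intro x hx
      obtain ⟨j, _, rfl⟩ := Finset.mem_image.1 hx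
      exact gam_mem a j
    have hS'u : ∀ u : V, S' ⊆ gamImg (Function.update a i (u, 0)) := by
      intro u x hx
      obtain ⟨j, hj, rfl⟩ := Finset.mem_image.1 hx
      have hji : j ≠ i := (Finset.mem_filter.1 hj).2
      have := gam_mem (Function.update a i (u, 0)) j
      rwa [Function.update_of_ne hji] at this
    have hcard : S'.card ≤ k := (Finset.card_le_card hS'a).trans (gam_card a)
    obtain ⟨w, hw⟩ := hbig S' hcard
    have hex : ∀ u : V, ∃ (c' : V) (D' : V → Fin 3 → ZMod 2),
        Big T (gamImg (Function.update a i (u, 0))) c' ∧ (∀ v ∈ S', D' v = D v) ∧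
        gamE T i0 v0 D' ∧ gamS c' D' := by
      intro u
      obtain ⟨c', hc'⟩ := hbig (gamImg (Function.update a i (u, 0))) (gam_card _)
      have h1 : Rch T S' w c := hBGU V T (gamImg a) S' c w hS'a hB hw
      have h2 : Rch T S' w c' := hBGU V T _ S' c' w (hS'u u) hc' hw
      have h3 : Rch T S' c c' := Relation.ReflTransGen.trans (gam_symm T S' h1) h2
      obtain ⟨D', hD1, hD2, hD3⟩ := hPTH V T S' D c c' h3 hS
      refine ⟨c', D', hc', hD1, ?_, hD3⟩
      intro l v
      rw [hD2 l v]
      exact hE l v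
    choose c' D' hc' hD1 hD2 hD3 using hex
    refine ⟨gamF (fun u => (D' u u 0, D' u u 1)), ?_⟩
    rintro ⟨u, x⟩
    refine ⟨D' u, c' u, hD2 u, hD3 u, ?_, ?_⟩
    · have : gamImg (Function.update a i (u, x)) = gamImg (Function.update a i (u, 0)) := by
        apply gam_congr
        intro j
        by_cases hj : j = i
        · subst hj
          simp
        · simp [Function.update_of_ne hj]
      rw [this]
      exact hc' u
    · intro j
      by_cases hj : j = i
      · subst hj
        simp [gamF]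
      · rw [Function.update_of_ne hj, Function.update_of_ne hj, hF j]
        have hmem : (a j).1 ∈ S' :=
          Finset.mem_image.2 ⟨j, Finset.mem_filter.2 ⟨Finset.mem_univ _, hj⟩, rfl⟩
        rw [hD1 u _ hmem]
  · have hS0 : gamS v0 (fun v i => sg i0 v0 i v) := by
      intro v
      constructor
      · intro hv
        subst hv
        simp [sg]
      · intro hv
        simp [sg, hv]
    have hex : ∀ u : V, ∃ (c' : V) (D' : V → Fin 3 → ZMod 2),
        Big T (gamImg (fun _ : Fin k => ((u, 0) : V × Z))) c' ∧ gamE T i0 v0 D' ∧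
        gamS c' D' := by
      intro u
      obtain ⟨c', hc'⟩ := hbig (gamImg (fun _ : Fin k => ((u, 0) : V × Z))) (gam_card _)
      have h3 : Rch T ∅ v0 c' :=
        hBGU V T _ ∅ c' v0 (Finset.empty_subset _) hc' hv0
      obtain ⟨D', _, hD2, hD3⟩ := hPTH V T ∅ (fun v i => sg i0 v0 i v) v0 c' h3 hS0
      refine ⟨c', D', hc', ?_, hD3⟩
      intro l v
      rw [hD2 l v]
    choose c' D' hc' hD2 hD3 using hex
    refine ⟨gamF (fun u => (D' u u 0, D' u u 1)), ?_⟩
    rintro ⟨u, x⟩
    refine ⟨D' u, c' u, hD2 u, hD3 u, ?_, ?_⟩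
    · have : gamImg (fun _ : Fin k => ((u, x) : V × Z)) =
          gamImg (fun _ : Fin k => ((u, 0) : V × Z)) := by
        apply gam_congr
        intro j
        rfl
      rw [this]
      exact hc' u
    · intro j
      simp [gamF]

end Pool.Agent.CLB
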