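import Mathlib
import Pool.Agent.BRW.Defs
import Pool.Agent.CLB.Defs
import Pool.Agent.CLB.St

set_option autoImplicit false

/-!
# Module MIN: the minimal cut between `A` and the rest (MP_87b449_lc)
-/

namespace Pool.Agent.CLB

open Pool.Agent.BRW

open Classical in
/-- The pairs of colour `i` that leave `U`. -/
noncomputable def min86c {V : Type} (T : Tri V) (i : Fin 3) (U : Finset V) : ℕ :=
  (U.filter (fun v => T.m i v ∉ U)).card

open Classical in
theorem min86_cut {V : Type} [Fintype V] (T : Tri V) (U : Finset V) :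
    cut T U = ∑ i : Fin 3, min86c T i U := by
  unfold cut min86c
  rw [Finset.card_filter, ← Finset.univ_product_univ, Finset.sum_product]
  refine Finset.sum_congr rfl (fun i _ => ?_)
  rw [Finset.card_filter]
  rw [← Finset.sum_filter_add_sum_filter_not (Finset.univ : Finset V) (fun v => v ∈ U)]
  have h2 : ∑ x ∈ Finset.univ.filter (fun v => ¬ v ∈ U),
      (if x ∈ U ∧ T.m i x ∉ U then 1 else 0) = 0 := by
    refine Finset.sum_eq_zero (fun x hx => ?_)
    rw [Finset.mem_filter] at hx
    rw [if_neg (fun h => hx.2 h.1)]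
  rw [h2, add_zero]
  have h3 : (Finset.univ : Finset V).filter (fun v => v ∈ U) = U := by
    ext v; simp
  rw [h3]
  refine Finset.sum_congr rfl (fun x hx => ?_)
  simp [hx]

open Classical in
theorem min86_step {V : Type} (T : Tri V) (i : Fin 3) (U : Finset V) (x : V) (hx : x ∉ U) :
    min86c T i (insert x U) + (if T.m i x ∈ U then 1 else 0) =
      min86c T i U + (if T.m i x ∈ U then 0 else 1) := by
  unfold min86c
  by_cases hy : T.m i x ∈ U
  · rw [if_pos hy, if_pos hy, add_zero]
    have hmem : T.m i x ∈ U.filter (fun v => T.m i v ∉ U) := by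
      rw [Finset.mem_filter]
      exact ⟨hy, by rw [T.inv]; exact hx⟩
    have hE : (insert x U).filter (fun v => T.m i v ∉ insert x U) =
        (U.filter (fun v => T.m i v ∉ U)).erase (T.m i x) := by
      ext v
      rw [Finset.mem_filter, Finset.mem_erase, Finset.mem_filter, Finset.mem_insert,
        Finset.mem_insert]
      constructor
      · rintro ⟨h1, h2⟩
        push Not at h2
        rcases h1 with h1 | h1
        · subst h1; exact absurd hy h2.2
        · exact ⟨fun h => h2.1 (by rw [h, T.inv]), h1, h2.2⟩
      · rintro ⟨h1, h2, h3⟩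
        refine ⟨Or.inr h2, ?_⟩
        rintro (h | h)
        · exact h1 (by rw [← h, T.inv])
        · exact h3 h
    rw [hE, Finset.card_erase_add_one hmem]
  · rw [if_neg hy, if_neg hy, add_zero]
    have hE : (insert x U).filter (fun v => T.m i v ∉ insert x U) =
        insert x (U.filter (fun v => T.m i v ∉ U)) := by
      ext v
      rw [Finset.mem_filter, Finset.mem_insert, Finset.mem_insert, Finset.mem_insert,
        Finset.mem_filter]
      constructor
      · rintro ⟨h1, h2⟩
        push Not at h2
        rcases h1 with h1 | h1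
        · exact Or.inl h1
        · exact Or.inr ⟨h1, h2.2⟩
      · rintro (h1 | ⟨h1, h2⟩)
        · subst h1
          refine ⟨Or.inl rfl, ?_⟩
          rintro (h | h)
          · exact T.ne i v h
          · exact hy h
        · refine ⟨Or.inr h1, ?_⟩
          rintro (h | h)
          · exact hy (by rw [← h, T.inv]; exact h1)
          · exact h2 h
    rw [hE, Finset.card_insert_of_notMem (fun h => hx (Finset.mem_filter.1 h).1)]

open Classical in
theorem min86_change {V : Type} [Fintype V] (T : Tri V) (U : Finset V) (x : V) (hx : x ∉ U) :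
    cut T (insert x U) + (Finset.univ.filter (fun i : Fin 3 => T.m i x ∈ U)).card =
      cut T U + (Finset.univ.filter (fun i : Fin 3 => T.m i x ∉ U)).card := by
  rw [min86_cut, min86_cut, Finset.card_filter, Finset.card_filter, ← Finset.sum_add_distrib,
    ← Finset.sum_add_distrib]
  refine Finset.sum_congr rfl (fun i _ => ?_)
  have := min86_step T i U x hx
  by_cases hy : T.m i x ∈ U
  · simpa [hy] using this
  · simpa [hy] using this

theorem minc : StmtMIN := by
  classical
  intro V _ T S A hd hA
  obtain ⟨U, hU, hmin⟩ := Finset.exists_min_image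
    ((A ∪ S).powerset.filter (fun U => A ⊆ U)) (cut T)
    ⟨A, by
      rw [Finset.mem_filter, Finset.mem_powerset]
      exact ⟨Finset.subset_union_left, Finset.Subset.refl A⟩⟩
  rw [Finset.mem_filter, Finset.mem_powerset] at hU
  obtain ⟨hU2, hU1⟩ := hU
  have h3 : ∀ (P : Fin 3 → Prop) [DecidablePred P] [DecidablePred (fun i => ¬ P i)],
      (Finset.univ.filter (fun i : Fin 3 => P i)).card +
      (Finset.univ.filter (fun i : Fin 3 => ¬ P i)).card = 3 := by
    intro P _ _
    rw [Finset.card_filter_add_card_filter_not]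
    simp
  have hcr : ∀ x ∈ S, (Finset.univ.filter
      (fun i : Fin 3 => ¬ (x ∈ U ↔ T.m i x ∈ U))).card ≤ 1 := by
    intro x hx
    have hxA : x ∉ A := fun h => (Finset.disjoint_left.1 hd) h hx
    by_cases hxU : x ∈ U
    · have hc := min86_change T (U.erase x) x (Finset.notMem_erase x U)
      rw [Finset.insert_erase hxU] at hc
      have hle : cut T U ≤ cut T (U.erase x) := by
        refine hmin _ ?_
        rw [Finset.mem_filter, Finset.mem_powerset]
        refine ⟨(Finset.erase_subset _ _).trans hU2, fun a ha => ?_⟩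
        exact Finset.mem_erase.2 ⟨fun h => hxA (h ▸ ha), hU1 ha⟩
      have he : ∀ i : Fin 3, T.m i x ∈ U.erase x ↔ T.m i x ∈ U := fun i => by
        rw [Finset.mem_erase]; exact ⟨fun h => h.2, fun h => ⟨T.ne i x, h⟩⟩
      simp only [he] at hc
      have h4 := h3 (fun i => T.m i x ∈ U)
      have h5 : (Finset.univ.filter (fun i : Fin 3 => ¬ (x ∈ U ↔ T.m i x ∈ U))) =
          Finset.univ.filter (fun i : Fin 3 => ¬ T.m i x ∈ U) := by
        ext i; simp [hxU]
      rw [h5]
      omega
    · have hc := min86_change T U x hxU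
      have hle : cut T U ≤ cut T (insert x U) := by
        refine hmin _ ?_
        rw [Finset.mem_filter, Finset.mem_powerset]
        refine ⟨Finset.insert_subset (Finset.mem_union_right _ hx) hU2,
          hU1.trans (Finset.subset_insert _ _)⟩
      have h4 := h3 (fun i => T.m i x ∈ U)
      have h5 : (Finset.univ.filter (fun i : Fin 3 => ¬ (x ∈ U ↔ T.m i x ∈ U))) =
          Finset.univ.filter (fun i : Fin 3 => T.m i x ∈ U) := by
        ext i; simp [hxU]
      rw [h5]
      omega
  refine ⟨U, hU1, hU2, ?_, ?_⟩
  · -- the cut is at most the number of elements of S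
    have key : ∀ e : Fin 3 × V, e.2 ∈ U → T.m e.1 e.2 ∉ U →
        (if e.2 ∈ S then e.2 else T.m e.1 e.2) ∈ S ∧
        ¬ ((if e.2 ∈ S then e.2 else T.m e.1 e.2) ∈ U ↔
          T.m e.1 (if e.2 ∈ S then e.2 else T.m e.1 e.2) ∈ U) ∧
        e.2 = (if (if e.2 ∈ S then e.2 else T.m e.1 e.2) ∈ U then
          (if e.2 ∈ S then e.2 else T.m e.1 e.2) else
            T.m e.1 (if e.2 ∈ S then e.2 else T.m e.1 e.2)) := by
      intro e he1 he2
      by_cases hs : e.2 ∈ S
      · simp only [if_pos hs, if_pos he1]
        exact ⟨hs, fun h => he2 (h.1 he1), trivial⟩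
      · simp only [if_neg hs, if_neg he2, T.inv]
        refine ⟨?_, fun h => he2 (h.2 he1), trivial⟩
        by_contra hm
        have heA : e.2 ∈ A := by
          rcases Finset.mem_union.1 (hU2 he1) with h | h
          · exact h
          · exact absurd h hs
        exact he2 (hU1 (hA e.2 _ heA hm ⟨e.1, rfl⟩))
    unfold cut
    refine Finset.card_le_card_of_injOn
      (fun e : Fin 3 × V => if e.2 ∈ S then e.2 else T.m e.1 e.2) ?_ ?_
    · intro e he
      rw [Finset.mem_coe, Finset.mem_filter] at he
      exact (key e he.2.1 he.2.2).1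
    · intro e he f hf hef
      rw [Finset.mem_coe, Finset.mem_filter] at he hf
      obtain ⟨e1, e2, e3⟩ := key e he.2.1 he.2.2
      obtain ⟨f1, f2, f3⟩ := key f hf.2.1 hf.2.2
      simp only at hef
      rw [← hef] at f1 f2 f3
      have hc := hcr _ e1
      rw [Finset.card_le_one] at hc
      have h1 : e.1 = f.1 := hc e.1 (by rw [Finset.mem_filter]; exact ⟨Finset.mem_univ _, e2⟩)
        f.1 (by rw [Finset.mem_filter]; exact ⟨Finset.mem_univ _, f2⟩)
      refine Prod.ext h1 ?_
      rw [f3, ← h1]
      exact e3
  · unfold cut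
    refine Finset.card_nbij' (fun e => (e.1, T.m e.1 e.2)) (fun e => (e.1, T.m e.1 e.2)) ?_ ?_ ?_ ?_
    · intro e he
      simp only [Finset.coe_filter, Finset.mem_univ, true_and, Set.mem_ofPred_eq,
        Finset.mem_compl, not_not, T.inv] at he ⊢
      exact ⟨he.2, he.1⟩
    · intro e he
      simp only [Finset.coe_filter, Finset.mem_univ, true_and, Set.mem_ofPred_eq,
        Finset.mem_compl, not_not, T.inv] at he ⊢
      exact ⟨he.2, he.1⟩
    · intro e _
      exact Prod.ext rfl (T.inv e.1 e.2)
    · intro e _
      exact Prod.ext rfl (T.inv e.1 e.2)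

end Pool.Agent.CLB
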