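import Mathlib
import Pool.Agent.CLB.St

set_option autoImplicit false

/-!
# Markov inequality for three random permutations (module MKV of CLB, MP_87b449_lc)   (helper53)
-/

namespace Pool.Agent.CLB

/-- Counting with weights `y ^ (∑ i, spl (σ i U))`. -/
theorem mkv_count (q s : ℕ) (y : ℝ) (U : Finset (Pt q)) (hy0 : 0 < y) (hy1 : y ≤ 1) :
    (Nat.card {σ : Fin 3 → Equiv.Perm (Pt q) // ∑ i, spl (U.map (σ i).toEmbedding) ≤ s} : ℝ) *
        y ^ s ≤
      ∑ σ : Fin 3 → Equiv.Perm (Pt q), ∏ i, y ^ spl (U.map (σ i).toEmbedding) := by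
  classical
  rw [Nat.card_eq_fintype_card, Fintype.card_subtype, ← nsmul_eq_mul, ← Finset.sum_const]
  refine le_trans (Finset.sum_le_sum (fun σ hσ => ?_))
    (Finset.sum_le_sum_of_subset_of_nonneg (Finset.filter_subset _ _)
      (fun σ _ _ => Finset.prod_nonneg (fun i _ => pow_nonneg hy0.le _)))
  rw [Finset.prod_pow_eq_pow_sum]
  exact pow_le_pow_of_le_one hy0.le hy1 (Finset.mem_filter.mp hσ).2

theorem mkv (hAVG : StmtAVG) : StmtMKV := by
  classical
  intro q s y U hy0 hy1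
  have hA := hAVG (Pt q) (fun W => y ^ spl W) U
  have hcard : Fintype.card (Pt q) = 2 * q := by
    simp [Pt, Fintype.card_prod, mul_comm]
  rw [hcard] at hA
  have h1 := mkv_count q s y U hy0 hy1
  have h2 : (∑ τ : Equiv.Perm (Pt q), y ^ spl (U.map τ.toEmbedding)) ^ 3 =
      ∑ σ : Fin 3 → Equiv.Perm (Pt q), ∏ i, y ^ spl (U.map (σ i).toEmbedding) :=
    Fintype.sum_pow (fun τ : Equiv.Perm (Pt q) => y ^ spl (U.map τ.toEmbedding)) 3
  rw [← h2] at h1
  have hC : (0 : ℝ) ≤ ((2 * q).choose U.card : ℝ) ^ 3 := by positivity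
  refine le_trans (mul_le_mul_of_nonneg_right h1 hC) (le_of_eq ?_)
  rw [← mul_pow, mul_comm, hA]

end Pool.Agent.CLB
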