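import Mathlib
import Pool.Agent.CLB.St

set_option autoImplicit false

namespace Pool.Agent.CLB

open Pool.Agent.BRW

theorem nis_fn_sub (i : Fin 3) (a b : Z) : fn i (a - b) = fn i a - fn i b := by
  unfold fn
  split_ifs
  · simp
  · simp
  · simp only [Prod.fst_sub, Prod.snd_sub]
    ring

theorem nis_fn_zero (i : Fin 3) : fn i (0 : Z) = 0 := by
  unfold fn
  split_ifs <;> simp

theorem nis_two (a : ZMod 2) : a + a = 0 := by
  revert a
  decide

theorem nis_fn_sum (x : Z) : ∑ i : Fin 3, fn i x = 0 := by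
  rw [Fin.sum_univ_three]
  have h0 : fn 0 x = x.1 := by simp [fn]
  have h1 : fn 1 x = x.2 := by simp [fn]
  have h2 : fn 2 x = x.1 + x.2 := by simp [fn]
  rw [h0, h1, h2]
  exact nis_two _

theorem nis_sum_sg {V : Type} [Fintype V] (i0 : Fin 3) (v0 : V) :
    ∑ i : Fin 3, ∑ v : V, sg i0 v0 i v = 1 := by
  classical
  rw [Finset.sum_eq_single i0]
  · rw [Finset.sum_eq_single v0]
    · simp [sg]
    · intro v _ hv
      simp [sg, hv]
    · intro h
      exact absurd (Finset.mem_univ _) h
  · intro i _ hi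
    refine Finset.sum_eq_zero ?_
    intro v _
    simp [sg, hi]
  · intro h
    exact absurd (Finset.mem_univ _) h

theorem nis_no {V : Type} [Fintype V] (T : Tri V) (i0 : Fin 3) (v0 : V) (x : V → Z)
    (h : ∀ (i : Fin 3) (v : V), fn i (x v) + fn i (x (T.m i v)) =
      sg i0 v0 i v + sg i0 v0 i (T.m i v)) : False := by
  classical
  have h1 : ∀ i : Fin 3, ∑ v : V, (fn i (x v) + sg i0 v0 i v) = 0 := by
    intro i
    refine Finset.sum_involution (fun v _ => T.m i v) ?_ ?_ ?_ ?_
    · intro v _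
      have h2 := h i v
      have h3 : (fn i (x v) + sg i0 v0 i v) + (fn i (x (T.m i v)) + sg i0 v0 i (T.m i v)) =
          (fn i (x v) + fn i (x (T.m i v))) + (sg i0 v0 i v + sg i0 v0 i (T.m i v)) := by ring
      rw [h3, h2]
      exact nis_two _
    · intro v _ _
      exact T.ne i v
    · intro v _
      exact Finset.mem_univ _
    · intro v _
      exact T.inv i v
  have h4 : ∑ i : Fin 3, ∑ v : V, (fn i (x v) + sg i0 v0 i v) = 0 :=
    Finset.sum_eq_zero fun i _ => h1 i
  simp only [Finset.sum_add_distrib] at h4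
  rw [nis_sum_sg, Finset.sum_comm] at h4
  rw [Finset.sum_eq_zero (fun v _ => nis_fn_sum (x v))] at h4
  rw [zero_add] at h4
  exact absurd h4 (by decide)

theorem nis : StmtNIS := by
  classical
  intro V _ T i0 v0
  refine ⟨fun φ => ?_⟩
  let S : (Fin 3 → V → ZMod 2) → (V → V × Z) → Prop := fun σ p =>
    ∀ u v, (Base T).Adj u v → (X T σ).Adj (p u) (p v)
  let s1 : Fin 3 → V → ZMod 2 := sg i0 v0
  let s0 : Fin 3 → V → ZMod 2 := fun _ _ => 0
  let c : (V → V) → (V → Z) := fun r =>
    if h : ∃ x : V → Z, S s1 (fun v => (r v, x v)) then Classical.choose h else 0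
  let g : (V → V × Z) → (V → V × Z) := fun p v =>
    ((p v).1, (p v).2 - c (fun w => (p w).1) v)
  have hginj : Function.Injective g := by
    intro p p' hpp
    have hf : (fun w => (p w).1) = fun w => (p' w).1 := by
      funext w
      have h0 : g p w = g p' w := congrFun hpp w
      have h00 : (g p w).1 = (g p' w).1 := by rw [h0]
      exact h00
    funext v
    have h1 : g p v = g p' v := congrFun hpp v
    have h22 : (g p v).1 = (g p' v).1 := by rw [h1]
    have h2 : (p v).1 = (p' v).1 := h22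
    have h33 : (g p v).2 = (g p' v).2 := by rw [h1]
    have h3 : (p v).2 - c (fun w => (p w).1) v = (p' v).2 - c (fun w => (p' w).1) v := h33
    rw [hf] at h3
    have h4 : (p v).2 = (p' v).2 := sub_left_injective h3
    exact Prod.ext h2 h4
  have hgS : ∀ p, S s1 p → S s0 (g p) := by
    intro p hp u v huv
    have hex : ∃ x : V → Z, S s1 (fun v => ((fun w => (p w).1) v, x v)) :=
      ⟨fun v => (p v).2, hp⟩
    have hc : S s1 (fun v => ((p v).1, c (fun w => (p w).1) v)) := by
      have h1 : c (fun w => (p w).1) = Classical.choose hex := dif_pos hex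
      rw [h1]
      exact Classical.choose_spec hex
    have ha := hp u v huv
    have hb := hc u v huv
    refine ⟨ha.1, ?_⟩
    intro i hi
    have ha2 : fn i (p u).2 + fn i (p v).2 = s1 i (p u).1 + s1 i (p v).1 := ha.2 i hi
    have hb2 : fn i (c (fun w => (p w).1) u) + fn i (c (fun w => (p w).1) v) =
        s1 i (p u).1 + s1 i (p v).1 := hb.2 i hi
    show fn i ((p u).2 - c (fun w => (p w).1) u) + fn i ((p v).2 - c (fun w => (p w).1) v) = 0 + 0
    rw [nis_fn_sub, nis_fn_sub]
    have h5 : fn i (p u).2 - fn i (c (fun w => (p w).1) u) +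
        (fn i (p v).2 - fn i (c (fun w => (p w).1) v)) =
        (fn i (p u).2 + fn i (p v).2) -
          (fn i (c (fun w => (p w).1) u) + fn i (c (fun w => (p w).1) v)) := by ring
    rw [h5, ha2, hb2, sub_self, add_zero]
  have hφS : ∀ p, S s0 p → S s1 (fun v => φ (p v)) := by
    intro p hp u v huv
    exact φ.map_rel_iff.2 (hp u v huv)
  let F : {p // S s0 p} → {p // S s0 p} := fun p => ⟨g (fun v => φ (p.1 v)), hgS _ (hφS _ p.2)⟩
  have hFinj : Function.Injective F := by
    intro p p' hpp
    have h1 : g (fun v => φ (p.1 v)) = g (fun v => φ (p'.1 v)) := congrArg Subtype.val hpp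
    have h2 := hginj h1
    apply Subtype.ext
    funext v
    exact φ.injective (congrFun h2 v)
  have hFsur : Function.Surjective F := Finite.surjective_of_injective hFinj
  have hid : S s0 (fun v => (v, 0)) := by
    intro u v huv
    refine ⟨huv, ?_⟩
    intro i _
    show fn i (0 : Z) + fn i (0 : Z) = 0 + 0
    rw [nis_fn_zero]
  obtain ⟨p, hp⟩ := hFsur ⟨_, hid⟩
  have hp1 : g (fun v => φ (p.1 v)) = fun v => (v, 0) := congrArg Subtype.val hp
  have hfst : ∀ v, (φ (p.1 v)).1 = v := by
    intro v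
    exact congrArg Prod.fst (congrFun hp1 v)
  have hS := hφS p.1 p.2
  refine nis_no T i0 v0 (fun v => (φ (p.1 v)).2) ?_
  intro i v
  have hadj : (Base T).Adj v (T.m i v) := ⟨i, rfl⟩
  have h1 := hS v (T.m i v) hadj
  have h2 : T.m i (φ (p.1 v)).1 = (φ (p.1 (T.m i v))).1 := by
    rw [hfst, hfst]
  have h3 := h1.2 i h2
  have h4 : fn i (φ (p.1 v)).2 + fn i (φ (p.1 (T.m i v))).2 =
      sg i0 v0 i (φ (p.1 v)).1 + sg i0 v0 i (φ (p.1 (T.m i v))).1 := h3
  rw [hfst, hfst] at h4
  exact h4

end Pool.Agent.CLB
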