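import Pool.Agent.CLB.St

set_option autoImplicit false

/-!
# CLB, module NUM: an inequality in one variable (helper85)
-/

namespace Pool.Agent.CLB

open Pool.Agent.BRW

theorem num_conv (a b α A B C c : ℝ) (h0 : 0 ≤ a) (hab : a < b) (hb1 : b ≤ 1) (h1 : a ≤ α)
    (h2 : α ≤ b)
    (ha : 2 * (a * Real.log a + (1 - a) * Real.log (1 - a)) - 2 / 25 * A + 3 / 2 * B - 3 * a * C ≤
      -c)
    (hb : 2 * (b * Real.log b + (1 - b) * Real.log (1 - b)) - 2 / 25 * A + 3 / 2 * B - 3 * b * C ≤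
      -c) :
    2 * (α * Real.log α + (1 - α) * Real.log (1 - α)) - 2 / 25 * A + 3 / 2 * B - 3 * α * C ≤
      -c := by
  have hd : 0 < b - a := sub_pos.2 hab
  obtain ⟨t, ht⟩ : ∃ t : ℝ, t = (α - a) / (b - a) := ⟨_, rfl⟩
  have ht' : t * (b - a) = α - a := by
    rw [ht, div_mul_cancel₀ _ hd.ne']
  have ht0 : 0 ≤ t := by
    rw [ht]
    exact div_nonneg (by linarith) hd.le
  have ht1 : t ≤ 1 := by
    rw [ht, div_le_one hd]
    linarith
  have hs0 : 0 ≤ 1 - t := by linarith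
  have hsum : (1 - t) + t = 1 := by ring
  have c1 := Real.convexOn_mul_log.2 (show a ∈ Set.Ici (0 : ℝ) from h0)
    (show b ∈ Set.Ici (0 : ℝ) from h0.trans hab.le) hs0 ht0 hsum
  have c2 := Real.convexOn_mul_log.2 (show 1 - a ∈ Set.Ici (0 : ℝ) from by
      show (0 : ℝ) ≤ 1 - a
      linarith)
    (show 1 - b ∈ Set.Ici (0 : ℝ) from by
      show (0 : ℝ) ≤ 1 - b
      linarith) hs0 ht0 hsum
  simp only [smul_eq_mul] at c1 c2
  have e1 : (1 - t) * a + t * b = α := by linarith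
  have e2 : (1 - t) * (1 - a) + t * (1 - b) = 1 - α := by linarith
  rw [e1] at c1
  rw [e2] at c2
  have m1 := mul_le_mul_of_nonneg_left ha hs0
  have m2 := mul_le_mul_of_nonneg_left hb ht0
  have e3 : α * C = (1 - t) * (a * C) + t * (b * C) := by
    rw [← e1]
    ring
  nlinarith [c1, c2, m1, m2, e3]

theorem num_log (P r : ℝ) (hP : 0 < P) (h : P ≤ r) : Real.log P ≤ r - 1 :=
  (Real.log_le_log hP h).trans (Real.log_le_sub_one_of_pos (hP.trans_le h))

theorem num_inv16 : Real.log (1 / 16) = -Real.log 16 := by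
  rw [one_div, Real.log_inv]

theorem num_inv23 : Real.log (2 / 3) = -Real.log (3 / 2) := by
  rw [← Real.log_inv, inv_div]

theorem num_inv78 : Real.log (7 / 8) = -Real.log (8 / 7) := by
  rw [← Real.log_inv, inv_div]

theorem num_prod (a b d e f : ℝ) (i j k l m : ℕ) (ha : 0 < a) (hb : 0 < b) (hd : 0 < d)
    (he : 0 < e) (hf : 0 < f) :
    Real.log (a ^ i * b ^ j * d ^ k * e ^ l * f ^ m) =
      i * Real.log a + j * Real.log b + k * Real.log d + l * Real.log e + m * Real.log f := by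
  rw [Real.log_mul (by positivity) (by positivity), Real.log_mul (by positivity) (by positivity),
    Real.log_mul (by positivity) (by positivity), Real.log_mul (by positivity) (by positivity),
    Real.log_pow, Real.log_pow, Real.log_pow, Real.log_pow, Real.log_pow]

theorem num_e1 :
    2 * ((23 / 75 : ℝ) * Real.log (23 / 75) + (1 - 23 / 75) * Real.log (1 - 23 / 75)) -
      2 / 25 * Real.log (1 / 16) + 3 / 2 * Real.log (1 + 2 * (1 / 16) * (2 / 3) + (2 / 3) ^ 2) -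
      3 * (23 / 75) * Real.log (2 / 3) ≤ -(1 / 1000) := by
  have e1 : (1 : ℝ) - 23 / 75 = 52 / 75 := by norm_num
  have e2 : (1 : ℝ) + 2 * (1 / 16) * (2 / 3) + (2 / 3) ^ 2 = 55 / 36 := by norm_num
  rw [e1, e2, num_inv16, num_inv23]
  have h := num_log ((23 / 75 : ℝ) ^ 92 * (52 / 75) ^ 208 * 16 ^ 12 * (55 / 36) ^ 225 *
    (3 / 2) ^ 138) (4 / 5) (by positivity) (by norm_num)
  rw [num_prod _ _ _ _ _ _ _ _ _ _ (by norm_num) (by norm_num) (by norm_num) (by norm_num)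
    (by norm_num)] at h
  push_cast at h
  linarith

theorem num_e2 :
    2 * ((2 / 5 : ℝ) * Real.log (2 / 5) + (1 - 2 / 5) * Real.log (1 - 2 / 5)) -
      2 / 25 * Real.log (1 / 16) + 3 / 2 * Real.log (1 + 2 * (1 / 16) * (2 / 3) + (2 / 3) ^ 2) -
      3 * (2 / 5) * Real.log (2 / 3) ≤ -(1 / 1000) := by
  have e1 : (1 : ℝ) - 2 / 5 = 3 / 5 := by norm_num
  have e2 : (1 : ℝ) + 2 * (1 / 16) * (2 / 3) + (2 / 3) ^ 2 = 55 / 36 := by norm_num
  rw [e1, e2, num_inv16, num_inv23]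
  have h := num_log ((2 / 5 : ℝ) ^ 40 * (3 / 5) ^ 60 * 16 ^ 4 * (55 / 36) ^ 75 *
    (3 / 2) ^ 60) (19 / 20) (by positivity) (by norm_num)
  rw [num_prod _ _ _ _ _ _ _ _ _ _ (by norm_num) (by norm_num) (by norm_num) (by norm_num)
    (by norm_num)] at h
  push_cast at h
  linarith

theorem num_e3 :
    2 * ((2 / 5 : ℝ) * Real.log (2 / 5) + (1 - 2 / 5) * Real.log (1 - 2 / 5)) -
      2 / 25 * Real.log (1 / 16) + 3 / 2 * Real.log (1 + 2 * (1 / 16) * (7 / 8) + (7 / 8) ^ 2) -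
      3 * (2 / 5) * Real.log (7 / 8) ≤ -(1 / 1000) := by
  have e1 : (1 : ℝ) - 2 / 5 = 3 / 5 := by norm_num
  have e2 : (1 : ℝ) + 2 * (1 / 16) * (7 / 8) + (7 / 8) ^ 2 = 15 / 8 := by norm_num
  rw [e1, e2, num_inv16, num_inv78]
  have h := num_log ((2 / 5 : ℝ) ^ 40 * (3 / 5) ^ 60 * 16 ^ 4 * (15 / 8) ^ 75 *
    (8 / 7) ^ 60) (1 / 2) (by positivity) (by norm_num)
  rw [num_prod _ _ _ _ _ _ _ _ _ _ (by norm_num) (by norm_num) (by norm_num) (by norm_num)
    (by norm_num)] at h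
  push_cast at h
  linarith

theorem num_e4 :
    2 * ((1 / 2 : ℝ) * Real.log (1 / 2) + (1 - 1 / 2) * Real.log (1 - 1 / 2)) -
      2 / 25 * Real.log (1 / 16) + 3 / 2 * Real.log (1 + 2 * (1 / 16) * (7 / 8) + (7 / 8) ^ 2) -
      3 * (1 / 2) * Real.log (7 / 8) ≤ -(1 / 1000) := by
  have e1 : (1 : ℝ) - 1 / 2 = 1 / 2 := by norm_num
  have e2 : (1 : ℝ) + 2 * (1 / 16) * (7 / 8) + (7 / 8) ^ 2 = 15 / 8 := by norm_num
  rw [e1, e2, num_inv16, num_inv78]
  have h := num_log ((1 / 2 : ℝ) ^ 50 * (1 / 2) ^ 50 * 16 ^ 4 * (15 / 8) ^ 75 *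
    (8 / 7) ^ 75) (1 / 2) (by positivity) (by norm_num)
  rw [num_prod _ _ _ _ _ _ _ _ _ _ (by norm_num) (by norm_num) (by norm_num) (by norm_num)
    (by norm_num)] at h
  push_cast at h
  linarith

theorem num : StmtNUM := by
  refine ⟨1 / 1000, by norm_num, fun α h1 h2 => ?_⟩
  rcases le_total α (2 / 5) with h | h
  · refine ⟨1 / 16, 2 / 3, by norm_num, by norm_num, by norm_num, ?_⟩
    exact num_conv (23 / 75) (2 / 5) α _ _ _ (1 / 1000) (by norm_num) (by norm_num) (by norm_num)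
      h1 h num_e1 num_e2
  · refine ⟨1 / 16, 7 / 8, by norm_num, by norm_num, by norm_num, ?_⟩
    exact num_conv (2 / 5) (1 / 2) α _ _ _ (1 / 1000) (by norm_num) (by norm_num) (by norm_num)
      h h2 num_e3 num_e4

end Pool.Agent.CLB
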