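import Mathlib
import Pool.Agent.BRW.Defs
import Pool.Agent.CLB.Defs
import Pool.Agent.CLB.St

set_option autoImplicit false

namespace Pool.Agent.CLB

open Pool.Agent.BRW

theorem pth : StmtPTH := by
  classical
  intro V T S D c c' h hD
  unfold Rch at h
  induction h with
  | refl => exact ⟨D, fun _ _ => rfl, fun _ _ => rfl, hD⟩
  | @tail b c2 _ hs ih =>
    obtain ⟨D', h1, h2, h3⟩ := ih
    obtain ⟨⟨i, hi⟩, hb, hc⟩ := hs
    have hne : c2 ≠ b := by
      rw [← hi]; exact T.ne i b
    have hi2 : T.m i c2 = b := by rw [← hi, T.inv]
    refine ⟨fun v j => D' v j + if (v = b ∨ v = c2) ∧ j = i then 1 else 0, ?_, ?_, ?_⟩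
    · intro v hv
      have hvb : v ≠ b := fun e => hb (e ▸ hv)
      have hvc : v ≠ c2 := fun e => hc (e ▸ hv)
      funext j
      simp [hvb, hvc, h1 v hv]
    · intro j v
      rw [← h2 j v]
      by_cases hj : j = i
      · subst hj
        by_cases hv : v = b
        · subst hv
          simp only [hi]
          simp
          have : (1 : ZMod 2) + 1 = 0 := by decide
          linear_combination this
        · by_cases hv2 : v = c2
          · subst hv2
            simp only [hi2]
            simp
            have : (1 : ZMod 2) + 1 = 0 := by decide
            linear_combination this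
          · have e1 : T.m j v ≠ b := by
              intro e
              apply hv2
              rw [← hi, ← e, T.inv]
            have e2 : T.m j v ≠ c2 := by
              intro e
              apply hv
              rw [← hi2, ← e, T.inv]
            simp [hv, hv2, e1, e2]
      · simp [hj]
    · intro v
      have hsum : ∑ j, (D' v j + if (v = b ∨ v = c2) ∧ j = i then (1 : ZMod 2) else 0) =
          (∑ j, D' v j) + if (v = b ∨ v = c2) then 1 else 0 := by
        rw [Finset.sum_add_distrib]
        congr 1
        by_cases hv : v = b ∨ v = c2
        · simp [hv]
        · simp [hv]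
      rw [hsum]
      constructor
      · intro hv
        subst hv
        rw [(h3 v).2 hne]
        simp
      · intro hv
        by_cases hvb : v = b
        · subst hvb
          rw [(h3 v).1 rfl]
          simp
          decide
        · rw [(h3 v).2 hvb]
          simp [hvb, hv]

end Pool.Agent.CLB
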