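import Pool.Agent.CLB.St

/-!
# RND: three good permutations exist
-/

set_option autoImplicit false

namespace Pool.Agent.CLB

open Pool.Agent.BRW

private lemma rnd_lim (c : ℝ) (hc : 0 < c) :
    ∀ᶠ q : ℕ in Filter.atTop,
      (2 * (q : ℝ) + 1) ^ 3 * Real.exp (-(c * (2 * q))) < 1 := by
  have h1 := Real.tendsto_pow_mul_exp_neg_atTop_nhds_zero 3
  have h2 : Filter.Tendsto (fun q : ℕ => c * (2 * (q : ℝ) + 1)) Filter.atTop Filter.atTop := by
    apply Filter.Tendsto.const_mul_atTop hc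
    apply Filter.tendsto_atTop_add_const_right
    exact Filter.Tendsto.const_mul_atTop (by norm_num) tendsto_natCast_atTop_atTop
  have h3 := h1.comp h2
  have h4 : (0 : ℝ) < c ^ 3 * Real.exp (-c) := by positivity
  have h5 := h3.eventually (gt_mem_nhds h4)
  filter_upwards [h5] with q hq
  simp only [Function.comp_apply] at hq
  have h6 : Real.exp (-(c * (2 * (q : ℝ) + 1))) = Real.exp (-(c * (2 * q))) * Real.exp (-c) := by
    rw [← Real.exp_add]
    congr 1
    ring
  rw [h6, mul_pow] at hq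
  have h7 : c ^ 3 * Real.exp (-c) * ((2 * (q : ℝ) + 1) ^ 3 * Real.exp (-(c * (2 * q)))) <
      c ^ 3 * Real.exp (-c) * 1 := by
    rw [mul_one]
    calc c ^ 3 * Real.exp (-c) * ((2 * (q : ℝ) + 1) ^ 3 * Real.exp (-(c * (2 * q))))
        = c ^ 3 * (2 * (q : ℝ) + 1) ^ 3 * (Real.exp (-(c * (2 * q))) * Real.exp (-c)) := by ring
      _ < c ^ 3 * Real.exp (-c) := hq
  exact lt_of_mul_lt_mul_left h7 h4.le

theorem rnd (hSIZ : StmtSIZ) (hTRI : StmtTRI) : StmtRND := by
  classical
  obtain ⟨c, hc, hS⟩ := hSIZ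
  obtain ⟨q0, hq0⟩ := Filter.eventually_atTop.mp (rnd_lim c hc)
  refine ⟨max q0 1, fun q hq => ?_⟩
  have hqq : q0 ≤ q := (le_max_left _ _).trans hq
  have hq1 : 1 ≤ q := (le_max_right _ _).trans hq
  have hlt := hq0 q hqq
  by_contra hcon
  push Not at hcon
  set s : ℕ := 4 * q / 25 with hs
  set F : Finset (Pt q) → Finset (Fin 3 → Equiv.Perm (Pt q)) := fun U =>
    (Finset.univ : Finset (Fin 3 → Equiv.Perm (Pt q))).filter
      (fun σ => ∑ i, spl (U.map (σ i).toEmbedding) ≤ s) with hF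
  set K : Finset ℕ := (Finset.range (q + 1)).filter (fun u => 46 * q ≤ 75 * u) with hK
  have hsub : (Finset.univ : Finset (Fin 3 → Equiv.Perm (Pt q))) ⊆
      K.biUnion (fun u => (Finset.powersetCard u (Finset.univ : Finset (Pt q))).biUnion F) := by
    intro σ _
    obtain ⟨U, h1, h2, h3⟩ := hcon σ
    rw [hTRI q σ U] at h3
    refine Finset.mem_biUnion.mpr ⟨U.card, ?_, Finset.mem_biUnion.mpr ⟨U, ?_, ?_⟩⟩
    · rw [hK, Finset.mem_filter, Finset.mem_range]
      constructor <;> omega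
    · rw [Finset.mem_powersetCard]
      exact ⟨Finset.subset_univ _, rfl⟩
    · rw [hF, Finset.mem_filter]
      exact ⟨Finset.mem_univ _, h3⟩
  have hcard1 : (Fintype.card (Fin 3 → Equiv.Perm (Pt q)) : ℝ) = ((2 * q).factorial : ℝ) ^ 3 := by
    have h : Fintype.card (Fin 3 → Equiv.Perm (Pt q)) = ((2 * q).factorial) ^ 3 := by
      rw [Fintype.card_fun, Fintype.card_perm, Fintype.card_fin]
      congr 2
      simp [Pt, mul_comm]
    exact_mod_cast h
  have hle : (Fintype.card (Fin 3 → Equiv.Perm (Pt q)) : ℝ) ≤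
      ∑ u ∈ K, ∑ U ∈ Finset.powersetCard u (Finset.univ : Finset (Pt q)), ((F U).card : ℝ) := by
    have h1 : Fintype.card (Fin 3 → Equiv.Perm (Pt q)) ≤
        ∑ u ∈ K, ∑ U ∈ Finset.powersetCard u (Finset.univ : Finset (Pt q)), (F U).card := by
      calc Fintype.card (Fin 3 → Equiv.Perm (Pt q))
          = (Finset.univ : Finset (Fin 3 → Equiv.Perm (Pt q))).card := (Finset.card_univ).symm
        _ ≤ _ := Finset.card_le_card hsub
        _ ≤ ∑ u ∈ K, ((Finset.powersetCard u (Finset.univ : Finset (Pt q))).biUnion F).card :=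
            Finset.card_biUnion_le
        _ ≤ _ := Finset.sum_le_sum (fun u _ => Finset.card_biUnion_le)
    exact_mod_cast h1
  have hterm : ∀ u ∈ K, ∑ U ∈ Finset.powersetCard u (Finset.univ : Finset (Pt q)),
      ((F U).card : ℝ) ≤
      ((2 * q).factorial : ℝ) ^ 3 * ((2 * q + 1) ^ 2 * Real.exp (-(c * (2 * q)))) := by
    intro u hu
    rw [hK, Finset.mem_filter, Finset.mem_range] at hu
    have h1 := hS q u s (by omega) hu.2 (by omega) (by omega)
    refine le_trans (le_of_eq ?_) h1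
    refine Finset.sum_congr rfl (fun U _ => ?_)
    congr 1
    rw [Nat.card_eq_fintype_card, Fintype.card_subtype]
  have hsum := hle.trans (Finset.sum_le_sum hterm)
  rw [Finset.sum_const, nsmul_eq_mul, hcard1] at hsum
  have hKc : (K.card : ℝ) ≤ 2 * (q : ℝ) + 1 := by
    have h1 : K.card ≤ q + 1 := by
      calc K.card ≤ (Finset.range (q + 1)).card := Finset.card_filter_le _ _
        _ = q + 1 := Finset.card_range _
    have h2 : (K.card : ℝ) ≤ (q : ℝ) + 1 := by exact_mod_cast h1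
    have h3 : (0 : ℝ) ≤ q := Nat.cast_nonneg q
    linarith
  have hf : (0 : ℝ) < ((2 * q).factorial : ℝ) ^ 3 := by positivity
  have he : (0 : ℝ) < (2 * (q : ℝ) + 1) ^ 2 * Real.exp (-(c * (2 * q))) := by positivity
  have h8 : (K.card : ℝ) * (((2 * q).factorial : ℝ) ^ 3 *
      ((2 * q + 1) ^ 2 * Real.exp (-(c * (2 * q))))) ≤
      ((2 * q).factorial : ℝ) ^ 3 *
        ((2 * (q : ℝ) + 1) ^ 3 * Real.exp (-(c * (2 * q)))) := by
    calc (K.card : ℝ) * (((2 * q).factorial : ℝ) ^ 3 *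
          ((2 * q + 1) ^ 2 * Real.exp (-(c * (2 * q)))))
        ≤ (2 * (q : ℝ) + 1) * (((2 * q).factorial : ℝ) ^ 3 *
          ((2 * q + 1) ^ 2 * Real.exp (-(c * (2 * q))))) :=
          mul_le_mul_of_nonneg_right hKc (by positivity)
      _ = _ := by ring
  have h9 : ((2 * q).factorial : ℝ) ^ 3 *
        ((2 * (q : ℝ) + 1) ^ 3 * Real.exp (-(c * (2 * q)))) <
        ((2 * q).factorial : ℝ) ^ 3 * 1 :=
    mul_lt_mul_of_pos_left hlt hf
  linarith

end Pool.Agent.CLB
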