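import Mathlib
import Pool.Agent.CLB.St

set_option autoImplicit false

/-!
# Separators (MP_87b449_lc): module SEP
-/

namespace Pool.Agent.CLB

open Pool.Agent.BRW

/-- SEP: from SPL and MIN, every small set leaves a component with more than half of the vertices. -/
theorem sep (hSPL : StmtSPL) (hMIN : StmtMIN) : StmtSEP := by
  classical
  intro V _ T s hp h4 hcut S hS
  by_contra hno
  push Not at hno
  have h1 : ∀ v, v ∉ S → 2 * Nat.card {w : V // Rch T S v w} ≤ Fintype.card V := by
    intro v hv
    by_contra h
    push Not at h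
    exact hno v ⟨hv, by rw [Nat.card_eq_fintype_card (α := V)]; exact h⟩
  obtain ⟨A, hd, hcl, hA, hB⟩ := hSPL V T S hp (le_trans (Nat.mul_le_mul_left 4 hS) h4) h1
  obtain ⟨U, hAU, hUA, hc, hcc⟩ := hMIN V T S A hd hcl
  have hU : A.card ≤ U.card := Finset.card_le_card hAU
  have hUc : ((A ∪ S)ᶜ).card ≤ (Uᶜ).card :=
    Finset.card_le_card (Finset.compl_subset_compl.2 hUA)
  have hsum : U.card + (Uᶜ).card = Fintype.card V := Finset.card_add_card_compl U
  rcases le_total (2 * U.card) (Fintype.card V) with h | h
  · have := hcut U (by omega) h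
    omega
  · have := hcut Uᶜ (by omega) (by omega)
    omega

end Pool.Agent.CLB
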