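import Mathlib
import Pool.Agent.CLB.St

set_option autoImplicit false

/-!
Module CLB_SIZ (MP_87b449_lc), helper52: all sets of one size.
-/

namespace Pool.Agent.CLB

open Pool.Agent.BRW

theorem siz_log (q u s : ℕ) (c y z : ℝ) (hq : 0 < q) (h46 : 46 * q ≤ 75 * u) (huq : u ≤ q)
    (h25 : 25 * s ≤ 4 * q) (hy : 0 < y) (hy1 : y ≤ 1) (hz : 0 < z)
    (hlog : 2 * (((u : ℝ) / ((2 * q : ℕ) : ℝ)) * Real.log ((u : ℝ) / ((2 * q : ℕ) : ℝ)) +
        (1 - ((u : ℝ) / ((2 * q : ℕ) : ℝ))) * Real.log (1 - ((u : ℝ) / ((2 * q : ℕ) : ℝ)))) -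
        2 / 25 * Real.log y + 3 / 2 * Real.log (1 + 2 * y * z + z ^ 2) -
        3 * ((u : ℝ) / ((2 * q : ℕ) : ℝ)) * Real.log z ≤ -c) :
    ((1 + 2 * y * z + z ^ 2) ^ (3 * q) / (z ^ (3 * u) * y ^ s)) *
      (((u : ℝ) / ((2 * q : ℕ) : ℝ)) ^ u * (1 - (u : ℝ) / ((2 * q : ℕ) : ℝ)) ^ (2 * q - u)) ^ 2 ≤
      Real.exp (-(c * (2 * q))) := by
  have hq' : (0 : ℝ) < q := by exact_mod_cast hq
  have hp : (0 : ℝ) < ((2 * q : ℕ) : ℝ) := by push_cast; positivity
  have hu' : (0 : ℝ) < u := by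
    have : 0 < u := by omega
    exact_mod_cast this
  have h46' : (46 : ℝ) * q ≤ 75 * u := by exact_mod_cast h46
  have huq' : (u : ℝ) ≤ q := by exact_mod_cast huq
  have h25' : (25 : ℝ) * s ≤ 4 * q := by exact_mod_cast h25
  set α : ℝ := (u : ℝ) / ((2 * q : ℕ) : ℝ) with hα
  have hα0 : 0 < α := div_pos hu' hp
  have hup : (u : ℝ) = α * (2 * q) := by
    rw [hα]; push_cast; field_simp
  have hα1 : 0 < 1 - α := by
    have : α * (2 * q) ≤ q := by rw [← hup]; exact huq'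
    have : α ≤ 1 / 2 := by
      by_contra hcon
      push Not at hcon
      nlinarith
    linarith
  set B : ℝ := 1 + 2 * y * z + z ^ 2 with hB
  have hB0 : 0 < B := by positivity
  have hX : 0 < (B ^ (3 * q) / (z ^ (3 * u) * y ^ s)) * (α ^ u * (1 - α) ^ (2 * q - u)) ^ 2 := by
    positivity
  rw [← Real.log_le_iff_le_exp hX]
  have hcast : ((2 * q - u : ℕ) : ℝ) = 2 * q - u := by
    rw [Nat.cast_sub (by omega)]; push_cast; ring
  have hl : Real.log ((B ^ (3 * q) / (z ^ (3 * u) * y ^ s)) *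
      (α ^ u * (1 - α) ^ (2 * q - u)) ^ 2) =
      3 * q * Real.log B - (3 * u * Real.log z + s * Real.log y) +
        2 * (u * Real.log α + (2 * q - u) * Real.log (1 - α)) := by
    rw [Real.log_mul (by positivity) (by positivity), Real.log_div (by positivity) (by positivity),
      Real.log_mul (by positivity) (by positivity), Real.log_pow, Real.log_pow, Real.log_pow,
      Real.log_pow, Real.log_mul (by positivity) (by positivity), Real.log_pow, Real.log_pow,
      hcast]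
    push_cast
    ring
  rw [hl]
  have hly : Real.log y ≤ 0 := Real.log_nonpos hy.le hy1
  have hs : -(s * Real.log y) ≤ -(2 / 25 * (2 * q) * Real.log y) := by
    have : (s : ℝ) ≤ 2 / 25 * (2 * q) := by linarith
    nlinarith
  have hfin := mul_le_mul_of_nonneg_left hlog (show (0 : ℝ) ≤ 2 * q by positivity)
  have hid : 3 * q * Real.log B - (3 * u * Real.log z + s * Real.log y) +
        2 * (u * Real.log α + (2 * q - u) * Real.log (1 - α)) =
      2 * q * (2 * (α * Real.log α + (1 - α) * Real.log (1 - α)) - 2 / 25 * Real.log y +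
        3 / 2 * Real.log B - 3 * α * Real.log z) +
        (-(s * Real.log y) - -(2 / 25 * (2 * q) * Real.log y)) := by
    rw [hup]; ring
  rw [hid]
  linarith

theorem siz (hMKV : StmtMKV) (hGEN : StmtGEN) (hBIN : StmtBIN) (hNUM : StmtNUM) : StmtSIZ := by
  classical
  obtain ⟨c, hc, hnum⟩ := hNUM
  refine ⟨c, hc, fun q u s hq h46 huq h25 => ?_⟩
  have hq' : (0 : ℝ) < q := by exact_mod_cast hq
  have hp : (0 : ℝ) < ((2 * q : ℕ) : ℝ) := by push_cast; positivity
  have h46' : (46 : ℝ) * q ≤ 75 * u := by exact_mod_cast h46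
  have huq' : (u : ℝ) ≤ q := by exact_mod_cast huq
  obtain ⟨y, z, hy, hy1, hz, hlog⟩ := hnum ((u : ℝ) / ((2 * q : ℕ) : ℝ))
    (by rw [le_div_iff₀ hp]; push_cast; linarith)
    (by rw [div_le_iff₀ hp]; push_cast; linarith)
  have hX := siz_log q u s c y z hq h46 huq h25 hy hy1 hz hlog
  have hbin := hBIN (2 * q) u (by omega) (by omega)
  set B : ℝ := 1 + 2 * y * z + z ^ 2 with hB
  have hB0 : 0 < B := by positivity
  set A : ℝ := ((u : ℝ) / ((2 * q : ℕ) : ℝ)) ^ u * (1 - (u : ℝ) / ((2 * q : ℕ) : ℝ)) ^ (2 * q - u)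
    with hA
  set C : ℝ := ((2 * q).choose u : ℝ) with hCdef
  have hC : 0 < C := by
    rw [hCdef]; exact_mod_cast Nat.choose_pos (by omega)
  set F : ℝ := ((2 * q).factorial : ℝ) with hFdef
  have hF : 0 < F := by
    rw [hFdef]; exact_mod_cast Nat.factorial_pos _
  have hone : ∀ U ∈ Finset.powersetCard u (Finset.univ : Finset (Pt q)),
      (Nat.card {σ : Fin 3 → Equiv.Perm (Pt q) //
        ∑ i, spl (U.map (σ i).toEmbedding) ≤ s} : ℝ) ≤
        (F * (B ^ q / z ^ u)) ^ 3 / (y ^ s * C ^ 3) := by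
    intro U hU
    have hUc := (Finset.mem_powersetCard.mp hU).2
    have h1 := hMKV q s y U hy hy1
    rw [hUc] at h1
    have h2 := hGEN q u y z hy.le hz.le
    have h3 := (le_div_iff₀ (pow_pos hz u)).mpr h2
    have hS0 : 0 ≤ ∑ W ∈ Finset.powersetCard u (Finset.univ : Finset (Pt q)), y ^ spl W :=
      Finset.sum_nonneg fun W _ => (pow_pos hy _).le
    rw [le_div_iff₀ (by positivity)]
    refine le_trans (le_of_eq (by rw [hCdef]; ring)) (h1.trans ?_)
    exact pow_le_pow_left₀ (mul_nonneg hF.le hS0) (mul_le_mul_of_nonneg_left h3 hF.le) 3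
  have hsum := Finset.sum_le_card_nsmul _ _ _ hone
  rw [Finset.card_powersetCard, Finset.card_univ, nsmul_eq_mul] at hsum
  have hcard : Fintype.card (Pt q) = 2 * q := by
    simp [mul_comm]
  rw [hcard] at hsum
  refine hsum.trans ?_
  have hCi : 1 / C ≤ (((2 * q : ℕ) : ℝ) + 1) * A := by
    rw [div_le_iff₀ hC]
    refine hbin.trans (le_of_eq ?_)
    rw [hA]; ring
  have hCi2 : (1 / C) ^ 2 ≤ ((((2 * q : ℕ) : ℝ) + 1) * A) ^ 2 :=
    pow_le_pow_left₀ (by positivity) hCi 2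
  have hE0 : 0 ≤ B ^ (3 * q) / (z ^ (3 * u) * y ^ s) := by positivity
  calc C * ((F * (B ^ q / z ^ u)) ^ 3 / (y ^ s * C ^ 3))
      = F ^ 3 * ((B ^ (3 * q) / (z ^ (3 * u) * y ^ s)) * (1 / C) ^ 2) := by
        have e1 : B ^ (3 * q) = (B ^ q) ^ 3 := by rw [← pow_mul, mul_comm]
        have e2 : z ^ (3 * u) = (z ^ u) ^ 3 := by rw [← pow_mul, mul_comm]
        rw [e1, e2]
        have hz' : z ^ u ≠ 0 := (pow_pos hz u).ne'
        have hy' : y ^ s ≠ 0 := (pow_pos hy s).ne'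
        have hC' : C ≠ 0 := hC.ne'
        field_simp
    _ ≤ F ^ 3 * ((B ^ (3 * q) / (z ^ (3 * u) * y ^ s)) * ((((2 * q : ℕ) : ℝ) + 1) * A) ^ 2) :=
        mul_le_mul_of_nonneg_left (mul_le_mul_of_nonneg_left hCi2 hE0) (by positivity)
    _ = F ^ 3 * ((2 * q + 1) ^ 2 * ((B ^ (3 * q) / (z ^ (3 * u) * y ^ s)) * A ^ 2)) := by
        push_cast; ring
    _ ≤ F ^ 3 * ((2 * q + 1) ^ 2 * Real.exp (-(c * (2 * q)))) := by
        refine mul_le_mul_of_nonneg_left (mul_le_mul_of_nonneg_left hX (by positivity))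
          (by positivity)

end Pool.Agent.CLB
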