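import Pool.Agent.CLB.St

set_option autoImplicit false

/-!
# Module SPL: splitting the complement of a separator (MP_87b449_lc)
-/

namespace Pool.Agent.CLB

open Pool.Agent.BRW

theorem spl_notMem {V : Type} (T : Tri V) (S : Finset V) {v w : V} (hv : v ∉ S)
    (h : Rch T S v w) : w ∉ S := by
  unfold Rch at h
  induction h with
  | refl => exact hv
  | tail _ h2 _ => exact h2.2.2

theorem spl_step {V : Type} (T : Tri V) (S : Finset V) {v a b : V} (h : Rch T S v a)
    (i : Fin 3) (hab : T.m i a = b) (ha : a ∉ S) (hb : b ∉ S) : Rch T S v b :=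
  Relation.ReflTransGen.tail h ⟨⟨i, hab⟩, ha, hb⟩

theorem spl_closed {V : Type} (T : Tri V) (S A : Finset V)
    (hA : ∀ a b : V, a ∈ A → b ∉ S → (∃ i : Fin 3, T.m i a = b) → b ∈ A)
    {v w : V} (hv : v ∈ A) (h : Rch T S v w) : w ∈ A := by
  unfold Rch at h
  induction h with
  | refl => exact hv
  | tail _ h2 ih => exact hA _ _ ih h2.2.2 h2.1

open Classical in
/-- The component of `v` without `S`. -/
noncomputable def spl_C {V : Type} [Fintype V] (T : Tri V) (S : Finset V) (v : V) : Finset V :=
  Finset.univ.filter (fun w => Rch T S v w)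

theorem spl_memC {V : Type} [Fintype V] (T : Tri V) (S : Finset V) (v w : V) :
    w ∈ spl_C T S v ↔ Rch T S v w := by
  unfold spl_C
  simp

theorem spl_cardC {V : Type} [Fintype V] (T : Tri V) (S : Finset V) (v : V) :
    (spl_C T S v).card = Nat.card {w : V // Rch T S v w} := by
  classical
  unfold spl_C
  rw [Nat.card_eq_fintype_card, Fintype.card_subtype]

theorem splt : StmtSPL := by
  classical
  intro V _ T S hp h4 hcomp
  have hcompl : ∀ A : Finset V, Disjoint A S →
      ((A ∪ S)ᶜ).card + A.card + S.card = Fintype.card V := by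
    intro A hA
    have h1 := Finset.card_compl_add_card (A ∪ S)
    rw [Finset.card_union_of_disjoint hA] at h1
    omega
  suffices h : ∃ A : Finset V, Disjoint A S ∧
      (∀ a b : V, a ∈ A → b ∉ S → (∃ i : Fin 3, T.m i a = b) → b ∈ A) ∧
      Fintype.card V ≤ 3 * A.card + S.card ∧
      3 * A.card + 2 * S.card ≤ 2 * Fintype.card V by
    obtain ⟨A, h1, h2, h3, h5⟩ := h
    refine ⟨A, h1, h2, h3, ?_⟩
    have h6 := hcompl A h1
    have h7 : Fintype.card V ≤ 3 * ((A ∪ S)ᶜ).card + S.card := by omega
    convert h7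
  by_cases hbig : ∃ v, v ∉ S ∧ Fintype.card V ≤ 3 * (spl_C T S v).card + S.card
  · obtain ⟨v, hv, hC⟩ := hbig
    refine ⟨spl_C T S v, ?_, ?_, hC, ?_⟩
    · rw [Finset.disjoint_left]
      intro w hw
      exact spl_notMem T S hv ((spl_memC T S v w).1 hw)
    · rintro a b ha hb ⟨i, hi⟩
      have ha' := (spl_memC T S v a).1 ha
      exact (spl_memC T S v b).2 (spl_step T S ha' i hi (spl_notMem T S hv ha') hb)
    · have h1 := hcomp v hv
      rw [← spl_cardC] at h1
      omega
  · push Not at hbig
    have hex : ∃ n : ℕ, ∃ A : Finset V, A.card = n ∧ Disjoint A S ∧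
        (∀ a b : V, a ∈ A → b ∉ S → (∃ i : Fin 3, T.m i a = b) → b ∈ A) ∧
        Fintype.card V ≤ 3 * A.card + S.card := by
      refine ⟨_, Sᶜ, rfl, ?_, ?_, ?_⟩
      · exact disjoint_compl_left
      · intro a b _ hb _
        simpa using hb
      · have h1 := Finset.card_compl_add_card S
        omega
    obtain ⟨A, hAn, hdis, hcl, hcard⟩ := Nat.find_spec hex
    have hmin : ∀ B : Finset V, Disjoint B S →
        (∀ a b : V, a ∈ B → b ∉ S → (∃ i : Fin 3, T.m i a = b) → b ∈ B) →
        Fintype.card V ≤ 3 * B.card + S.card → A.card ≤ B.card := by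
      intro B h1 h2 h3
      rw [hAn]
      exact Nat.find_min' hex ⟨B, rfl, h1, h2, h3⟩
    have hne : A.Nonempty := by
      rw [Finset.nonempty_iff_ne_empty]
      rintro rfl
      simp only [Finset.card_empty] at hcard
      omega
    obtain ⟨a, ha⟩ := hne
    have haS : a ∉ S := Finset.disjoint_left.1 hdis ha
    have hCA : spl_C T S a ⊆ A := by
      intro w hw
      exact spl_closed T S A hcl ha ((spl_memC T S a w).1 hw)
    have haC : a ∈ spl_C T S a := (spl_memC T S a a).2 Relation.ReflTransGen.refl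
    have hCpos : 0 < (spl_C T S a).card := Finset.card_pos.2 ⟨a, haC⟩
    have hsd : (A \ spl_C T S a).card + (spl_C T S a).card = A.card :=
      Finset.card_sdiff_add_card_eq_card hCA
    have hlt : ¬ Fintype.card V ≤ 3 * (A \ spl_C T S a).card + S.card := by
      intro hh
      have := hmin (A \ spl_C T S a) (hdis.mono_left Finset.sdiff_subset) (by
        rintro x y hx hy ⟨i, hi⟩
        rw [Finset.mem_sdiff] at hx ⊢
        refine ⟨hcl x y hx.1 hy ⟨i, hi⟩, ?_⟩
        intro hyC
        apply hx.2
        rw [spl_memC] at hyC ⊢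
        have hxS : x ∉ S := Finset.disjoint_left.1 hdis hx.1
        refine spl_step T S hyC i ?_ hy hxS
        rw [← hi, T.inv]) hh
      omega
    have hC3 := hbig a haS
    refine ⟨A, hdis, hcl, hcard, ?_⟩
    omega

end Pool.Agent.CLB
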