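import Mathlib
import Pool.Agent.BRW.Defs
import Pool.Agent.CLB.Defs
import Pool.Agent.CLB.St

set_option autoImplicit false

/-!
# Cut of three permutations = sum of the numbers of split pairs
-/

namespace Pool.Agent.CLB

open Pool.Agent.BRW

/-- One colour. -/
theorem tri_one {q : ℕ} (σ : Fin 3 → Equiv.Perm (Pt q)) (U : Finset (Pt q)) (i : Fin 3) :
    spl (U.map (σ i).toEmbedding) =
      (U.filter (fun v => (tri σ).m i v ∉ U)).card := by
  unfold spl
  rw [Finset.filter_map, Finset.card_map]
  congr 1
  apply Finset.filter_congr
  intro v _
  simp only [Function.comp, Equiv.coe_toEmbedding, Finset.mem_map_equiv]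
  rfl

theorem trc : StmtTRI := by
  classical
  intro q σ U
  have h1 : cut (tri σ) U = ∑ i : Fin 3, (U.filter (fun v => (tri σ).m i v ∉ U)).card := by
    unfold cut
    rw [← Finset.card_sigma]
    apply Finset.card_bij' (fun e _ => (⟨e.1, e.2⟩ : Σ _ : Fin 3, Pt q))
      (fun e _ => (e.1, e.2))
    · intro e he
      simp only [Finset.mem_filter, Finset.mem_univ, true_and] at he
      simp only [Finset.mem_sigma, Finset.mem_univ, true_and, Finset.mem_filter]
      exact he
    · intro e he
      simp only [Finset.mem_sigma, Finset.mem_univ, true_and, Finset.mem_filter] at he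
      simp only [Finset.mem_filter, Finset.mem_univ, true_and]
      exact he
    · intro e _
      rfl
    · intro e _
      rfl
  rw [h1]
  apply Finset.sum_congr rfl
  intro i _
  exact (tri_one σ U i).symm

end Pool.Agent.CLB
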